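import Pool.Agent.H300Z.Modal.Defs

set_option autoImplicit false

namespace Pool.Agent.H300Z.Modal

universe u v

def Fm.disj (a b : Fm) : Fm := .imp a.neg b
def Fm.dia (a : Fm) : Fm := (Fm.box a.neg).neg
def Fm.top : Fm := Fm.bot.neg

section
variable {W : Type u} {R : W → W → Prop} {V : ℕ → W → Prop} {w : W}

@[simp] theorem sat_var (n : ℕ) : Sat R V w (.var n) ↔ V n w := Iff.rfl
@[simp] theorem sat_bot : Sat R V w .bot ↔ False := Iff.rfl
@[simp] theorem sat_imp (a b : Fm) : Sat R V w (.imp a b) ↔ (Sat R V w a → Sat R V w b) := Iff.rfl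
@[simp] theorem sat_box (a : Fm) : Sat R V w (.box a) ↔ ∀ v, R w v → Sat R V v a := Iff.rfl
@[simp] theorem sat_neg (a : Fm) : Sat R V w a.neg ↔ ¬ Sat R V w a := Iff.rfl
@[simp] theorem sat_top : Sat R V w Fm.top ↔ True := by simp [Fm.top]
@[simp] theorem sat_conj (a b : Fm) : Sat R V w (a.conj b) ↔ Sat R V w a ∧ Sat R V w b := by
  simp [Fm.conj]
@[simp] theorem sat_disj (a b : Fm) : Sat R V w (a.disj b) ↔ Sat R V w a ∨ Sat R V w b := by
  simp only [Fm.disj, sat_imp, sat_neg]; tauto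
@[simp] theorem sat_dia (a : Fm) : Sat R V w a.dia ↔ ∃ v, R w v ∧ Sat R V v a := by
  simp [Fm.dia]
theorem sat_conjList (l : List Fm) : Sat R V w (Fm.conjList l) ↔ ∀ a ∈ l, Sat R V w a := by
  induction l with
  | nil => simp [Fm.conjList]
  | cons a l ih => simp [Fm.conjList, ih]

theorem sat_subst (s : ℕ → Fm) (a : Fm) :
    ∀ w : W, Sat R V w (a.subst s) ↔ Sat R (fun n v => Sat R V v (s n)) w a := by
  induction a with
  | var n => intro w; rfl
  | bot => intro w; rfl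
  | imp a b iha ihb => intro w; simp [Fm.subst, iha, ihb]
  | box a ih => intro w; simp [Fm.subst, ih]
end

@[simp] theorem sig_neg (a : Fm) : a.neg.sig = a.sig := by simp [Fm.neg, Fm.sig]
@[simp] theorem sig_conj (a b : Fm) : (a.conj b).sig = a.sig ∪ b.sig := by simp [Fm.conj, Fm.sig]
@[simp] theorem sig_disj (a b : Fm) : (a.disj b).sig = a.sig ∪ b.sig := by simp [Fm.disj, Fm.sig]
@[simp] theorem sig_dia (a : Fm) : a.dia.sig = a.sig := by simp [Fm.dia, Fm.sig]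
@[simp] theorem sig_top : Fm.top.sig = ∅ := by simp [Fm.top, Fm.sig]
@[simp] theorem sig_bot : Fm.bot.sig = ∅ := rfl
@[simp] theorem sig_var (n : ℕ) : (Fm.var n).sig = {n} := rfl
@[simp] theorem sig_box (a : Fm) : (Fm.box a).sig = a.sig := rfl
@[simp] theorem sig_imp (a b : Fm) : (Fm.imp a b).sig = a.sig ∪ b.sig := rfl

/-- The logic of a class of frames is normal. -/
theorem isNormal_log {ι : Type v} (W : ι → Type) (R : ∀ i, W i → W i → Prop) (C : ι → Prop) :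
    IsNormal {a | ∀ i, C i → ∀ (V : ℕ → W i → Prop) (w : W i), Sat (R i) V w a} where
  taut a ha i _ V w := ha (fun b => Sat (R i) V w b) (by simp) (by simp)
  distr a b i _ V w := by
    simp only [sat_imp, sat_box]
    intro h1 h2 v hv
    exact h1 v hv (h2 v hv)
  mp a b h1 h2 i hi V w := h1 i hi V w (h2 i hi V w)
  nec a h i hi V w := fun v _ => h i hi V v
  subst s a h i hi V w := (sat_subst s a w).2 (h i hi _ w)

theorem bisim_sat {σ : Finset ℕ} {W₁ W₂ : Type u} {R₁ : W₁ → W₁ → Prop} {V₁ : ℕ → W₁ → Prop}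
    {R₂ : W₂ → W₂ → Prop} {V₂ : ℕ → W₂ → Prop} {Z : W₁ → W₂ → Prop}
    (hZ : IsBisim σ R₁ V₁ R₂ V₂ Z) (a : Fm) (ha : a.sig ⊆ σ) :
    ∀ x y, Z x y → (Sat R₁ V₁ x a ↔ Sat R₂ V₂ y a) := by
  induction a with
  | var n => intro x y h; exact (hZ x y h).1 n (ha (by simp))
  | bot => intro x y _; rfl
  | imp a b iha ihb =>
    intro x y h
    simp only [sig_imp, Finset.union_subset_iff] at ha
    simp only [sat_imp, iha ha.1 x y h, ihb ha.2 x y h]
  | box a ih =>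
    intro x y h
    simp only [sat_box]
    constructor
    · intro h1 y' hy'
      obtain ⟨x', hx', hz⟩ := (hZ x y h).2.2 y' hy'
      exact (ih ha x' y' hz).1 (h1 x' hx')
    · intro h1 x' hx'
      obtain ⟨y', hy', hz⟩ := (hZ x y h).2.1 x' hx'
      exact (ih ha x' y' hz).2 (h1 y' hy')

theorem IsBisim.flip {σ : Finset ℕ} {W₁ W₂ : Type u} {R₁ : W₁ → W₁ → Prop} {V₁ : ℕ → W₁ → Prop}
    {R₂ : W₂ → W₂ → Prop} {V₂ : ℕ → W₂ → Prop} {Z : W₁ → W₂ → Prop}
    (hZ : IsBisim σ R₁ V₁ R₂ V₂ Z) : IsBisim σ R₂ V₂ R₁ V₁ (fun y x => Z x y) :=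
  fun y x h => ⟨fun p hp => ((hZ x y h).1 p hp).symm, (hZ x y h).2.2, (hZ x y h).2.1⟩

/-- Lifting a model to a higher universe. -/
theorem sat_ulift {W : Type} (R : W → W → Prop) (V : ℕ → ULift.{u} W → Prop) (a : Fm) :
    ∀ w : ULift.{u} W, Sat (fun x y : ULift.{u} W => R x.down y.down) V w a ↔
      Sat R (fun n x => V n ⟨x⟩) w.down a := by
  induction a with
  | var n => intro w; rfl
  | bot => intro w; rfl
  | imp a b iha ihb => intro w; simp [iha, ihb]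
  | box a ih =>
    intro w
    simp only [sat_box, ih]
    exact ⟨fun h v hv => h ⟨v⟩ hv, fun h v hv => h v.down hv⟩

theorem frameFor_ulift {L : Set Fm} {W : Type} {R : W → W → Prop} (h : FrameFor L R) :
    FrameFor L (fun x y : ULift.{u} W => R x.down y.down) :=
  fun a ha V w => (sat_ulift R V a w).2 (h a ha _ _)

/-- The easy half of the criterion holds for every set of formulas. -/
theorem no_interpolant_of_bisim {L : Set Fm} {a₁ a₂ : Fm}
    {W₁ : Type u} {R₁ : W₁ → W₁ → Prop} {V₁ : ℕ → W₁ → Prop} {x₁ : W₁}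
    {W₂ : Type u} {R₂ : W₂ → W₂ → Prop} {V₂ : ℕ → W₂ → Prop} {x₂ : W₂} {Z : W₁ → W₂ → Prop}
    (h₁ : FrameFor L R₁) (h₂ : FrameFor L R₂) (hZ : IsBisim (a₁.sig ∩ a₂.sig) R₁ V₁ R₂ V₂ Z)
    (hx : Z x₁ x₂) (s₁ : Sat R₁ V₁ x₁ a₁) (s₂ : Sat R₂ V₂ x₂ a₂.neg) :
    ¬ ∃ i, IsInterpolant L a₁ a₂ i := by
  rintro ⟨i, hs, hi₁, hi₂⟩
  exact s₂ (h₂ _ hi₂ V₂ x₂ ((bisim_sat hZ i hs x₁ x₂ hx).1 (h₁ _ hi₁ V₁ x₁ s₁)))

end Pool.Agent.H300Z.Modal
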