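import Pool.Agent.H300Z.Modal.TF

/-!
# Filling the cuts; strong completeness
-/

set_option autoImplicit false

namespace Pool.Agent.H300Z.Modal.SC

open Pool.Agent.H300Z.Modal Filter

universe u

section Compl

variable (F : TF)

def TF.Iic (t : F.T) : Set F.T := {a | a = t ∨ F.lt a t}

def TF.Low (S : Set F.T) : Prop := ∀ a b, F.lt a b → b ∈ S → a ∈ S

def TF.Bad (S : Set F.T) : Prop :=
  F.Low S ∧ F.NoMax (fun t => t ∈ S) ∧ ¬ ∃ y, F.IsSup (fun t => t ∈ S) y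

theorem TF.low_Iic (t : F.T) : F.Low (F.Iic t) := by
  rintro a b h (rfl | hb)
  · exact Or.inr h
  · exact Or.inr (F.trans _ _ _ h hb)

theorem TF.Low.lt {F : TF} {S : Set F.T} (h : F.Low S) {a b : F.T} (ha : a ∈ S) (hb : b ∉ S) :
    F.lt a b := by
  rcases F.tri a b with h1 | rfl | h1
  · exact h1
  · exact (hb ha).elim
  · exact (hb (h _ _ h1 ha)).elim

theorem TF.lt_of_lt_le {F : TF} {a b c : F.T} (h1 : F.lt a b) (h2 : c = b ∨ F.lt b c) :
    F.lt a c := by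
  rcases h2 with rfl | h2
  · exact h1
  · exact F.trans _ _ _ h1 h2

theorem TF.Iic_ssub {s t : F.T} : F.Iic s ⊂ F.Iic t ↔ F.lt s t := by
  constructor
  · intro h
    rcases h.1 (Or.inl rfl : s ∈ F.Iic s) with rfl | h1
    · exact (h.2 subset_rfl).elim
    · exact h1
  · intro h
    refine ⟨?_, fun h2 => ?_⟩
    · rintro a (rfl | ha)
      · exact Or.inr h
      · exact Or.inr (F.trans _ _ _ ha h)
    · rcases h2 (Or.inl rfl : t ∈ F.Iic t) with rfl | h3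
      · exact F.irr _ h
      · exact F.irr _ (F.trans _ _ _ h h3)

def TF.Pt : Type := {S : Set F.T // (∃ t, S = F.Iic t) ∨ F.Bad S}

theorem TF.Pt.low {F : TF} (S : F.Pt) : F.Low S.1 := by
  rcases S.2 with ⟨t, h⟩ | h
  · rw [h]; exact F.low_Iic t
  · exact h.1

theorem exists_ultra (S : F.Pt) : ∃ U : Ultrafilter F.T, (∀ᶠ u in U, u ∈ S.1) ∧
    (∀ a ∈ S.1, ∀ᶠ u in U, u = a ∨ F.lt a u) ∧ (∀ t, S.1 = F.Iic t → U = pure t) ∧
    (F.Bad S.1 → ∀ᶠ u in U, ¬ F.two u) := by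
  rcases S.2 with ⟨t, h⟩ | h
  · refine ⟨pure t, ?_, ?_, ?_, ?_⟩
    · rw [h]; exact (Or.inl rfl : t ∈ F.Iic t)
    · rw [h]
      rintro a (rfl | ha)
      · exact (Or.inl rfl : a = a ∨ _)
      · exact (Or.inr ha : t = a ∨ _)
    · intro s hs
      rw [h] at hs
      have h1 : t ∈ F.Iic s := hs ▸ (Or.inl rfl : t ∈ F.Iic t)
      have h2 : s ∈ F.Iic t := hs ▸ (Or.inl rfl : s ∈ F.Iic s)
      rcases h1 with rfl | h1
      · rfl
      · rcases h2 with rfl | h2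
        · rfl
        · exact (F.irr _ (F.trans _ _ _ h1 h2)).elim
    · rw [h]
      intro hb
      obtain ⟨s, hs, hs'⟩ := hb.2.1.2 t (Or.inl rfl)
      rcases hs with rfl | hs
      · exact (F.irr _ hs').elim
      · exact (F.irr _ (F.trans _ _ _ hs hs')).elim
  · obtain ⟨a0, ha0⟩ := h.2.1.1
    have : Nonempty S.1 := ⟨⟨a0, ha0⟩⟩
    have : Nonempty F.T := ⟨a0⟩
    let f : S.1 → Filter F.T := fun a => 𝓟 {u | u ∈ S.1 ∧ ¬ F.two u ∧ (u = a.1 ∨ F.lt a.1 u)}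
    have hd : Directed (· ≥ ·) f := by
      intro a b
      have key : ∀ a b : S.1, F.lt a.1 b.1 → f a ≥ f b := by
        intro a b hab
        refine principal_mono.2 ?_
        rintro u ⟨h1, h2, h3⟩
        exact ⟨h1, h2, Or.inr (TF.lt_of_lt_le hab h3)⟩
      rcases F.tri a.1 b.1 with h1 | h1 | h1
      · exact ⟨b, key a b h1, le_rfl⟩
      · exact ⟨b, by rw [Subtype.ext h1], le_rfl⟩
      · exact ⟨a, le_rfl, key b a h1⟩
    have hn : ∀ a, (f a).NeBot := by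
      intro a
      obtain ⟨b, hb, hab⟩ := h.2.1.2 a.1 a.2
      obtain ⟨u, h1, h2, h3⟩ := F.fo _ _ hab
      refine principal_neBot_iff.2 ⟨u, ?_, h1, h2⟩
      rcases h3 with rfl | h3
      · exact hb
      · exact h.1 _ _ h3 hb
    have := iInf_neBot_of_directed hd hn
    obtain ⟨U, hU⟩ := Ultrafilter.exists_le (⨅ a, f a)
    have hm : ∀ a : S.1, ∀ᶠ u in U, u ∈ S.1 ∧ ¬ F.two u ∧ (u = a.1 ∨ F.lt a.1 u) :=
      fun a => (hU.trans (iInf_le f a)) (mem_principal_self _)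
    refine ⟨U, (hm ⟨a0, ha0⟩).mono fun _ h => h.1, fun a ha => (hm ⟨a, ha⟩).mono fun _ h => h.2.2,
      ?_, fun _ => (hm ⟨a0, ha0⟩).mono fun _ h => h.2.1⟩
    intro t ht
    have : t ∈ S.1 := ht ▸ (Or.inl rfl : t ∈ F.Iic t)
    obtain ⟨s, hs, hs'⟩ := h.2.1.2 t this
    rw [ht] at hs
    rcases hs with rfl | hs
    · exact (F.irr _ hs').elim
    · exact (F.irr _ (F.trans _ _ _ hs hs')).elim

noncomputable def TF.uf (S : F.Pt) : Ultrafilter F.T := (exists_ultra F S).choose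

theorem TF.uf1 (S : F.Pt) : ∀ᶠ u in F.uf S, u ∈ S.1 := (exists_ultra F S).choose_spec.1
theorem TF.uf2 (S : F.Pt) : ∀ a ∈ S.1, ∀ᶠ u in F.uf S, u = a ∨ F.lt a u :=
  (exists_ultra F S).choose_spec.2.1
theorem TF.uf4 (S : F.Pt) : F.Bad S.1 → ∀ᶠ u in F.uf S, ¬ F.two u :=
  (exists_ultra F S).choose_spec.2.2.2

def TF.pt (t : F.T) : F.Pt := ⟨F.Iic t, Or.inl ⟨t, rfl⟩⟩

theorem TF.uf3 (t : F.T) (P : F.T → Prop) : (∀ᶠ u in F.uf (F.pt t), P u) ↔ P t := by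
  have : F.uf (F.pt t) = pure t := (exists_ultra F (F.pt t)).choose_spec.2.2.1 t rfl
  rw [this]
  simp

theorem TF.Pt.cases {F : TF} (S : F.Pt) : (∃ t, S = F.pt t) ∨ F.Bad S.1 := by
  rcases S.2 with ⟨t, h⟩ | h
  · exact Or.inl ⟨t, Subtype.ext h⟩
  · exact Or.inr h

theorem TF.bad_not_two (S : F.Pt) (h : F.Bad S.1) : ¬ ∀ᶠ u in F.uf S, F.two u := fun h2 => by
  obtain ⟨u, hu⟩ := ((F.uf4 S h).and h2).exists
  exact hu.1 hu.2

def compl : TF where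
  T := F.Pt
  lt S S' := S.1 ⊂ S'.1
  two S := ∀ᶠ u in F.uf S, F.two u
  irr S h := h.2 h.1
  trans _ _ _ h1 h2 := h1.trans h2
  tri S S' := by
    by_cases h1 : S.1 ⊆ S'.1
    · by_cases h2 : S'.1 ⊆ S.1
      · exact Or.inr (Or.inl (Subtype.ext (h1.antisymm h2)))
      · exact Or.inl ⟨h1, h2⟩
    · refine Or.inr (Or.inr ⟨?_, h1⟩)
      obtain ⟨a, ha, ha'⟩ := Set.not_subset.1 h1
      intro b hb
      exact S.low _ _ (S'.low.lt hb ha') ha
  fo S S' h := by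
    rcases S.cases with ⟨s, rfl⟩ | h1
    · rcases S'.cases with ⟨t, rfl⟩ | h2
      · obtain ⟨u, h1, h2, h3⟩ := F.fo _ _ (F.Iic_ssub.1 h)
        refine ⟨F.pt u, fun h => h1 ((F.uf3 u _).1 h), ?_, ?_⟩
        · exact h2.imp (fun h => by rw [h]) F.Iic_ssub.2
        · exact h3.imp (fun h => by rw [h]) F.Iic_ssub.2
      · exact ⟨S', F.bad_not_two S' h2, Or.inr h, Or.inl rfl⟩
    · exact ⟨S, F.bad_not_two S h1, Or.inl rfl, Or.inr h⟩

theorem compl_cpl : (compl F).Cpl := by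
  rintro X ⟨⟨S0, hS0⟩, hX⟩
  let A : Set F.T := {a | ∃ S : F.Pt, X S ∧ a ∈ S.1}
  have hlow : F.Low A := fun a b h ⟨S, h1, h2⟩ => ⟨S, h1, S.low _ _ h h2⟩
  have hup : ∀ S : F.Pt, X S → ∃ a ∈ A, a ∉ S.1 := by
    intro S hS
    obtain ⟨S', h1, h2⟩ := hX S hS
    obtain ⟨a, ha, ha'⟩ := Set.exists_of_ssubset h2
    exact ⟨a, ⟨S', h1, ha⟩, ha'⟩
  have hno : F.NoMax (fun t => t ∈ A) := by
    refine ⟨?_, ?_⟩
    · obtain ⟨a, ha, -⟩ := hup S0 hS0
      exact ⟨a, ha⟩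
    · rintro t ⟨S, h1, h2⟩
      obtain ⟨a, ha, ha'⟩ := hup S h1
      exact ⟨a, ha, S.low.lt h2 ha'⟩
  have hbelow : ∀ S : F.Pt, S.1 ⊂ A → ∃ S' : F.Pt, X S' ∧ S.1 ⊂ S'.1 := by
    intro S hS
    obtain ⟨a, ⟨S', h1, h2⟩, ha'⟩ := Set.exists_of_ssubset hS
    exact ⟨S', h1, fun b hb => S'.low _ _ (S.low.lt hb ha') h2, fun h => ha' (h h2)⟩
  by_cases hb : ∃ y, F.IsSup (fun t => t ∈ A) y
  · obtain ⟨y, h1, h2, h3⟩ := hb
    refine ⟨F.pt y, fun h => h1 ((F.uf3 y _).1 h), ?_, ?_⟩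
    · intro S hS
      refine ⟨fun a ha => Or.inr (h2 a ⟨S, hS, ha⟩), fun h => ?_⟩
      exact F.irr _ (h2 y ⟨S, hS, h (Or.inl rfl)⟩)
    · intro S hS
      have hy : y ∉ S.1 := fun h => hS.2 (by
        rintro a (rfl | ha)
        · exact h
        · exact S.low _ _ ha h)
      have hsub : S.1 ⊆ A := by
        intro a ha
        obtain ⟨t, ht, hat⟩ := h3 a (S.low.lt ha hy)
        exact hlow _ _ hat ht
      apply hbelow
      refine ⟨hsub, fun h => ?_⟩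
      have hA : S.1 = A := hsub.antisymm h
      rcases S.cases with ⟨s, rfl⟩ | hbad
      · obtain ⟨a, ha, ha'⟩ := hno.2 s (hsub (Or.inl rfl))
        rcases h ha with rfl | h4
        · exact F.irr _ ha'
        · exact F.irr _ (F.trans _ _ _ h4 ha')
      · exact hbad.2.2 ⟨y, by rw [hA]; exact ⟨h1, h2, h3⟩⟩
  · have hbad : F.Bad A := ⟨hlow, hno, hb⟩
    refine ⟨⟨A, Or.inr hbad⟩, F.bad_not_two _ hbad, ?_, fun S hS => hbelow S hS⟩
    intro S hS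
    obtain ⟨a, ha, ha'⟩ := hup S hS
    exact ⟨fun b hb => ⟨S, hS, hb⟩, fun h => ha' (h ha)⟩

def complV (V : ℕ → F.T × Srt → Prop) : ℕ → (compl F).T × Srt → Prop :=
  fun n x => ∀ᶠ u in F.uf x.1, V n (u, x.2)

theorem compl_forth (X : F.T × Srt → Prop) (S S' : F.Pt) (c d : Srt)
    (h : (compl F).R (S, c) (S', d)) (hX : ∀ᶠ u in F.uf S', X (u, d)) :
    ∀ᶠ u in F.uf S, ∃ z, F.R (u, c) z ∧ X z := by
  cases c <;> cases d <;> simp only [TF.R, TF.R'] at h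
  · obtain ⟨a, ha, ha'⟩ := Set.exists_of_ssubset h
    obtain ⟨v, hv, hv'⟩ := ((F.uf2 S' a ha).and hX).exists
    exact (F.uf1 S).mono (fun u hu => ⟨(v, .pl), TF.lt_of_lt_le (S.low.lt hu ha') hv, hv'⟩)
  · obtain rfl : S' = S := h
    exact hX.mono (fun u hu => ⟨(u, .mi), rfl, hu⟩)
  · obtain rfl : S' = S := h
    exact hX.mono (fun u hu => ⟨(u, .d0), rfl, hu⟩)
  · obtain ⟨h1, h2⟩ := h
    obtain rfl : S' = S := h1
    exact (hX.and h2).mono (fun u hu => ⟨(u, .d1), ⟨rfl, hu.2⟩, hu.1⟩)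
  · obtain rfl : S' = S := h
    exact hX.mono (fun u hu => ⟨(u, .pl), rfl, hu⟩)
  · obtain ⟨a, ha, ha'⟩ := Set.exists_of_ssubset h
    obtain ⟨v, hv, hv'⟩ := ((F.uf1 S').and hX).exists
    exact (F.uf2 S a ha).mono (fun u hu => ⟨(v, .mi), TF.lt_of_lt_le (S'.low.lt hv ha') hu, hv'⟩)

theorem compl_back {V : ℕ → F.T × Srt → Prop} (hV : F.DefSup V) (a : Fm) (S : F.Pt) (c : Srt)
    (h : ∀ᶠ u in F.uf S, ∃ z, F.R (u, c) z ∧ Sat F.R V z a) :
    ∃ (S' : F.Pt) (d : Srt), (compl F).R (S, c) (S', d) ∧ ∀ᶠ u in F.uf S', Sat F.R V (u, d) a := by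
  have h2 : ∀ᶠ u in F.uf S, ∃ d : Srt, ∃ s, F.R (u, c) (s, d) ∧ Sat F.R V (s, d) a :=
    h.mono (fun u ⟨⟨s, d⟩, h1, h2⟩ => ⟨d, s, h1, h2⟩)
  obtain ⟨d, h3⟩ := (Ultrafilter.eventually_exists_iff (f := F.uf S)
    (P := fun (d : Srt) u => ∃ s, F.R (u, c) (s, d) ∧ Sat F.R V (s, d) a)).1 h2
  cases c <;> cases d <;> simp only [TF.R, TF.R', false_and, exists_false,
    Filter.eventually_false_iff_eq_bot, (F.uf S).neBot.ne] at h3
  · have key : ∃ s, s ∉ S.1 ∧ Sat F.R V (s, .pl) a := by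
      by_contra hc
      have hc' : ∀ s, Sat F.R V (s, .pl) a → s ∈ S.1 := fun s hs => by
        by_contra h; exact hc ⟨s, h, hs⟩
      have hcof : ∀ t ∈ S.1, ∃ s, Sat F.R V (s, .pl) a ∧ F.lt t s := by
        intro t ht
        obtain ⟨u, hu, s, hs, hs'⟩ := ((F.uf2 S t ht).and h3).exists
        refine ⟨s, hs', ?_⟩
        rcases hu with rfl | hu
        · exact hs
        · exact F.trans _ _ _ hu hs
      rcases S.cases with ⟨t, rfl⟩ | hbad
      · obtain ⟨s, hs, hs'⟩ := hcof t (Or.inl rfl)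
        rcases hc' s hs with rfl | h4
        · exact F.irr _ hs'
        · exact F.irr _ (F.trans _ _ _ h4 hs')
      · obtain ⟨t0, ht0⟩ := hbad.2.1.1
        obtain ⟨y, h1, h2, h4⟩ := hV a .pl ⟨⟨_, (hcof t0 ht0).choose_spec.1⟩,
          fun t ht => hcof t (hc' t ht)⟩
        refine hbad.2.2 ⟨y, h1, fun t ht => ?_, fun b hb => ?_⟩
        · obtain ⟨s, hs, hs'⟩ := hcof t ht
          exact F.trans _ _ _ hs' (h2 s hs)
        · obtain ⟨t, ht, ht'⟩ := h4 b hb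
          exact ⟨t, hc' t ht, ht'⟩
    obtain ⟨s, hs, hs'⟩ := key
    refine ⟨F.pt s, .pl, ?_, (F.uf3 s _).2 hs'⟩
    exact ⟨fun b hb => Or.inr (S.low.lt hb hs), fun h => hs (h (Or.inl rfl))⟩
  · exact ⟨S, .mi, rfl, h3.mono (fun u ⟨s, h1, h2⟩ => h1 ▸ h2)⟩
  · exact ⟨S, .d0, rfl, h3.mono (fun u ⟨s, h1, h2⟩ => h1 ▸ h2)⟩
  · exact ⟨S, .d1, ⟨rfl, h3.mono (fun u ⟨s, h1, _⟩ => h1.2)⟩,
      h3.mono (fun u ⟨s, h1, h2⟩ => h1.1 ▸ h2)⟩
  · exact ⟨S, .pl, rfl, h3.mono (fun u ⟨s, h1, h2⟩ => h1 ▸ h2)⟩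
  · obtain ⟨u, hu, s, hs, hs'⟩ := ((F.uf1 S).and h3).exists
    refine ⟨F.pt s, .mi, ?_, (F.uf3 s _).2 hs'⟩
    refine ⟨?_, fun h => ?_⟩
    · rintro b (rfl | hb)
      · exact S.low _ _ hs hu
      · exact S.low _ _ (F.trans _ _ _ hb hs) hu
    · rcases h hu with rfl | h4
      · exact F.irr _ hs
      · exact F.irr _ (F.trans _ _ _ h4 hs)

theorem compl_truth {V : ℕ → F.T × Srt → Prop} (hV : F.DefSup V) (a : Fm) :
    ∀ (S : F.Pt) (c : Srt), Sat (compl F).R (complV F V) (S, c) a ↔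
      ∀ᶠ u in F.uf S, Sat F.R V (u, c) a := by
  induction a with
  | var n => intro S c; exact Iff.rfl
  | bot => intro S c; simp [(F.uf S).neBot.ne]
  | imp a b iha ihb => intro f c; simp only [sat_imp, iha, ihb, Ultrafilter.eventually_imp]
  | box a ih =>
    intro S c
    simp only [sat_box]
    constructor
    · intro h
      by_contra hc
      rw [← Ultrafilter.eventually_not] at hc
      obtain ⟨S', d, h1, h2⟩ := compl_back F hV a.neg S c (hc.mono (fun u hu => by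
        simpa only [not_forall, exists_prop, sat_neg] using hu))
      obtain ⟨u, hu⟩ := (h2.and ((ih S' d).1 (h _ h1))).exists
      exact hu.1 hu.2
    · rintro h ⟨S', d⟩ hs
      refine (ih S' d).2 ?_
      by_contra hc
      rw [← Ultrafilter.eventually_not] at hc
      obtain ⟨u, hu, z, hz, hz'⟩ :=
        (h.and (compl_forth F (fun z => ¬ Sat F.R V z a) S S' c d hs hc)).exists
      exact hz' (hu z hz)

end Compl

theorem strong : StronglyComplete.{u} L := by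
  classical
  intro Γ hΓ
  have h1 : ∀ s : Finset Fm, ∃ (F : TF) (_ : F.Cpl) (V : ℕ → F.T × Srt → Prop) (w : F.T × Srt),
      ∀ a ∈ s, a ∈ Γ → Sat F.R V w a := by
    intro s
    by_contra hc
    refine hΓ ⟨(s.filter (· ∈ Γ)).toList, fun a ha => ?_, fun F hF V w hw => ?_⟩
    · exact (Finset.mem_filter.1 (Finset.mem_toList.1 ha)).2
    · refine hc ⟨F, hF, V, w, fun a ha ha' => (sat_conjList _).1 hw a ?_⟩
      exact Finset.mem_toList.2 (Finset.mem_filter.2 ⟨ha, ha'⟩)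
  choose F hF V w hw using h1
  obtain ⟨U, hU⟩ := Ultrafilter.exists_le (atTop : Filter (Finset Fm))
  have : ∀ i, Nonempty (F i).T := fun i => ⟨(w i).1⟩
  obtain ⟨c, hc⟩ := (Ultrafilter.eventually_exists_iff (f := U)
    (P := fun (d : Srt) i => (w i).2 = d)).1 (Eventually.of_forall (fun i => ⟨_, rfl⟩))
  let G := ultra U F
  let t : G.T := Quotient.mk (uS U F) (fun i => (w i).1)
  have h2 : ∀ a ∈ Γ, Sat G.R (ultraV U F V) (t, c) a := by
    intro a ha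
    refine (los U F V a _ c).2 ?_
    have : ∀ᶠ s : Finset Fm in U, a ∈ s :=
      hU ((eventually_ge_atTop {a}).mono (fun s hs => hs (Finset.mem_singleton_self a)))
    refine (this.and hc).mono (fun i hi => ?_)
    rw [← hi.2]
    exact hw i a hi.1 ha
  refine ⟨ULift ((compl G).T × Srt), fun x y => (compl G).R x.down y.down,
    fun n x => complV G (ultraV U F V) n x.down, ⟨(G.pt t, c)⟩,
    frameFor_ulift (frameFor _ (compl_cpl G)), fun a ha => (sat_ulift _ _ _ _).2 ?_⟩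
  exact (compl_truth G (ultra_defSup U F hF V) a (G.pt t) c).2 ((G.uf3 t _).2 (h2 a ha))

end Pool.Agent.H300Z.Modal.SC
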