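import Mathlib

/-!
# Unimodal logic: formulas, normal logics, Kripke frames, interpolants, bisimulations
-/

set_option autoImplicit false

namespace Pool.Agent.H300Z.Modal

universe u

/-- Formulas of propositional unimodal logic over countably many variables. -/
inductive Fm : Type
  | var : ℕ → Fm
  | bot : Fm
  | imp : Fm → Fm → Fm
  | box : Fm → Fm

/-- Negation. -/
def Fm.neg (a : Fm) : Fm := .imp a .bot

/-- Conjunction. -/
def Fm.conj (a b : Fm) : Fm := (Fm.imp a b.neg).neg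

/-- The conjunction of a finite list of formulas (the empty conjunction is `¬ ⊥`). -/
def Fm.conjList : List Fm → Fm
  | [] => Fm.bot.neg
  | a :: l => a.conj (Fm.conjList l)

/-- The set of variables of a formula. -/
def Fm.sig : Fm → Finset ℕ
  | .var n => {n}
  | .bot => ∅
  | .imp a b => a.sig ∪ b.sig
  | .box a => a.sig

/-- Uniform substitution. -/
def Fm.subst (s : ℕ → Fm) : Fm → Fm
  | .var n => s n
  | .bot => .bot
  | .imp a b => .imp (a.subst s) (b.subst s)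
  | .box a => .box (a.subst s)

/-- A substitution instance of a propositional tautology: true under every truth assignment to
formulas that respects `⊥` and `→`. -/
def Fm.IsTaut (a : Fm) : Prop :=
  ∀ v : Fm → Prop, ¬ v .bot → (∀ b c, v (.imp b c) ↔ (v b → v c)) → v a

/-- A normal modal logic. -/
structure IsNormal (L : Set Fm) : Prop where
  taut : ∀ a : Fm, a.IsTaut → a ∈ L
  distr : ∀ a b : Fm, Fm.imp (.box (.imp a b)) (.imp (.box a) (.box b)) ∈ L
  mp : ∀ a b : Fm, Fm.imp a b ∈ L → a ∈ L → b ∈ L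
  nec : ∀ a : Fm, a ∈ L → Fm.box a ∈ L
  subst : ∀ (s : ℕ → Fm) (a : Fm), a ∈ L → a.subst s ∈ L

/-- Truth at a point `w` of the Kripke model with accessibility relation `R` and valuation `V`. -/
def Sat {W : Type u} (R : W → W → Prop) (V : ℕ → W → Prop) : W → Fm → Prop
  | w, .var n => V n w
  | _, .bot => False
  | w, .imp a b => Sat R V w a → Sat R V w b
  | w, .box a => ∀ v, R w v → Sat R V v a

/-- The Kripke frame `(W, R)` is a frame for `L`: it validates every formula of `L`. -/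
def FrameFor (L : Set Fm) {W : Type u} (R : W → W → Prop) : Prop :=
  ∀ a ∈ L, ∀ (V : ℕ → W → Prop) (w : W), Sat R V w a

/-- `Γ` is `L`-consistent: no finite conjunction of members of `Γ` is refuted by `L`. -/
def Consistent (L : Set Fm) (Γ : Set Fm) : Prop :=
  ¬ ∃ l : List Fm, (∀ a ∈ l, a ∈ Γ) ∧ (Fm.conjList l).neg ∈ L

/-- Strong Kripke completeness: every `L`-consistent set is satisfied at some point of some model
based on a Kripke frame for `L`. -/
def StronglyComplete (L : Set Fm) : Prop :=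
  ∀ Γ : Set Fm, Consistent L Γ →
    ∃ (W : Type u) (R : W → W → Prop) (V : ℕ → W → Prop) (w : W),
      FrameFor L R ∧ ∀ a ∈ Γ, Sat R V w a

/-- `i` is a Craig interpolant of `a₁, a₂` in `L`. -/
def IsInterpolant (L : Set Fm) (a₁ a₂ i : Fm) : Prop :=
  i.sig ⊆ a₁.sig ∩ a₂.sig ∧ Fm.imp a₁ i ∈ L ∧ Fm.imp i a₂ ∈ L

/-- `Z` is a `σ`-bisimulation between the models `(W₁, R₁, V₁)` and `(W₂, R₂, V₂)`. -/
def IsBisim (σ : Finset ℕ) {W₁ W₂ : Type u} (R₁ : W₁ → W₁ → Prop) (V₁ : ℕ → W₁ → Prop)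
    (R₂ : W₂ → W₂ → Prop) (V₂ : ℕ → W₂ → Prop) (Z : W₁ → W₂ → Prop) : Prop :=
  ∀ x y, Z x y → (∀ p ∈ σ, V₁ p x ↔ V₂ p y) ∧ (∀ x', R₁ x x' → ∃ y', R₂ y y' ∧ Z x' y') ∧
    (∀ y', R₂ y y' → ∃ x', R₁ x x' ∧ Z x' y')

/-- The Kripke criterion: `a₁, a₂` have no interpolant in `L` iff there are
`sig a₁ ∩ sig a₂`-bisimilar pointed models on Kripke frames for `L` satisfying `a₁` and `¬ a₂`. -/
def KripkeCriterion (L : Set Fm) : Prop :=
  ∀ a₁ a₂ : Fm, (¬ ∃ i, IsInterpolant L a₁ a₂ i) ↔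
    ∃ (W₁ : Type u) (R₁ : W₁ → W₁ → Prop) (V₁ : ℕ → W₁ → Prop) (x₁ : W₁)
      (W₂ : Type u) (R₂ : W₂ → W₂ → Prop) (V₂ : ℕ → W₂ → Prop) (x₂ : W₂) (Z : W₁ → W₂ → Prop),
      FrameFor L R₁ ∧ FrameFor L R₂ ∧ IsBisim (a₁.sig ∩ a₂.sig) R₁ V₁ R₂ V₂ Z ∧ Z x₁ x₂ ∧
        Sat R₁ V₁ x₁ a₁ ∧ Sat R₂ V₂ x₂ a₂.neg

end Pool.Agent.H300Z.Modal
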