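import Pool.Agent.H300Z.Modal.Compl

/-!
# The logic `SC.L` lacks the Kripke criterion
-/

set_option autoImplicit false

namespace Pool.Agent.H300Z.Modal.SC

open Pool.Agent.H300Z.Modal

universe u

/-! ### Derived operators -/

def fDead : Fm := .box .bot
def fPl : Fm := fDead.dia
def fMi : Fm := fDead.neg.conj fPl.neg
def fF (a : Fm) : Fm := (fPl.conj a).dia
def fP (a : Fm) : Fm := (fMi.conj (fMi.conj (fPl.conj a).dia).dia).dia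
def fG (a : Fm) : Fm := (fF a.neg).neg
def fH (a : Fm) : Fm := (fP a.neg).neg
def fII (a : Fm) : Fm := (fDead.conj a).dia.conj (fDead.conj a.neg).dia

section Sem
variable {W : Type u} (R : W → W → Prop)

def Dead (w : W) : Prop := ∀ v, ¬ R w v
def Pl (w : W) : Prop := ∃ v, R w v ∧ Dead R v
def Mi (w : W) : Prop := ¬ Dead R w ∧ ¬ Pl R w
def Fr (x y : W) : Prop := R x y ∧ Pl R y
def Pr (x y : W) : Prop := ∃ a b, R x a ∧ Mi R a ∧ R a b ∧ Mi R b ∧ R b y ∧ Pl R y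
def II (r : W → Prop) (w : W) : Prop := (∃ v, R w v ∧ Dead R v ∧ r v) ∧ ∃ v, R w v ∧ Dead R v ∧ ¬ r v

variable {R} {V : ℕ → W → Prop} {w : W}

@[simp] theorem sat_fDead : Sat R V w fDead ↔ Dead R w := Iff.rfl
@[simp] theorem sat_fPl : Sat R V w fPl ↔ Pl R w := by simp [fPl, Pl]
@[simp] theorem sat_fMi : Sat R V w fMi ↔ Mi R w := by simp [fMi, Mi]
@[simp] theorem sat_fF (a : Fm) : Sat R V w (fF a) ↔ ∃ y, Fr R w y ∧ Sat R V y a := by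
  simp [fF, Fr, and_assoc]
@[simp] theorem sat_fP (a : Fm) : Sat R V w (fP a) ↔ ∃ y, Pr R w y ∧ Sat R V y a := by
  simp only [fP, Pr, sat_dia, sat_conj, sat_fMi, sat_fPl]
  constructor
  · rintro ⟨x, h1, h2, y, h3, h4, z, h5, h6, h7⟩
    exact ⟨z, ⟨x, y, h1, h2, h3, h4, h5, h6⟩, h7⟩
  · rintro ⟨z, ⟨x, y, h1, h2, h3, h4, h5, h6⟩, h7⟩
    exact ⟨x, h1, h2, y, h3, h4, z, h5, h6, h7⟩
@[simp] theorem sat_fG (a : Fm) : Sat R V w (fG a) ↔ ∀ y, Fr R w y → Sat R V y a := by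
  simp [fG]
@[simp] theorem sat_fH (a : Fm) : Sat R V w (fH a) ↔ ∀ y, Pr R w y → Sat R V y a := by
  simp [fH]
@[simp] theorem sat_fII (n : ℕ) : Sat R V w (fII (.var n)) ↔ II R (V n) w := by
  simp [fII, II]

end Sem

/-! ### The derived relations in simulations -/

theorem tf_dead (F : TF) (t : F.T) (c : Srt) : Dead F.R (t, c) ↔ c = .d0 ∨ c = .d1 := by
  cases c
  · simp only [reduceCtorEq, or_self, iff_false]
    exact fun h => h (t, .mi) rfl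
  · simp only [reduceCtorEq, or_self, iff_false]
    exact fun h => h (t, .pl) rfl
  · simp only [true_or, iff_true]
    rintro ⟨s, d⟩ h
    cases d <;> exact h
  · simp only [or_true, iff_true]
    rintro ⟨s, d⟩ h
    cases d <;> exact h

theorem tf_pl (F : TF) (t : F.T) (c : Srt) : Pl F.R (t, c) ↔ c = .pl := by
  constructor
  · rintro ⟨⟨s, d⟩, h1, h2⟩
    rw [tf_dead] at h2
    cases c <;> rcases h2 with rfl | rfl <;> first | rfl | exact h1.elim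
  · rintro rfl
    exact ⟨(t, .d0), rfl, (tf_dead F t _).2 (Or.inl rfl)⟩

theorem tf_mi (F : TF) (t : F.T) (c : Srt) : Mi F.R (t, c) ↔ c = .mi := by
  rw [Mi, tf_dead, tf_pl]
  cases c <;> simp

theorem tf_fr (F : TF) (t : F.T) (z : F.T × Srt) :
    Fr F.R (t, .pl) z ↔ ∃ s, z = (s, .pl) ∧ F.lt t s := by
  obtain ⟨s, d⟩ := z
  rw [Fr, tf_pl]
  constructor
  · rintro ⟨h, rfl⟩
    exact ⟨s, rfl, h⟩
  · rintro ⟨s', h1, h2⟩
    obtain ⟨rfl, rfl⟩ := Prod.mk.inj h1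
    exact ⟨h2, rfl⟩

theorem tf_pr (F : TF) (t : F.T) (z : F.T × Srt) :
    Pr F.R (t, .pl) z ↔ ∃ s, z = (s, .pl) ∧ F.lt s t := by
  obtain ⟨s, d⟩ := z
  constructor
  · rintro ⟨⟨a, c⟩, ⟨b, e⟩, h1, h2, h3, h4, h5, h6⟩
    rw [tf_mi] at h2 h4
    rw [tf_pl] at h6
    subst h2 h4 h6
    obtain rfl : a = t := h1
    obtain rfl : s = b := h5
    exact ⟨s, rfl, h3⟩
  · rintro ⟨s', h1, h2⟩
    obtain ⟨rfl, rfl⟩ := Prod.mk.inj h1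
    exact ⟨(t, .mi), (s, .mi), rfl, (tf_mi F _ _).2 rfl, h2, (tf_mi F _ _).2 rfl, rfl,
      (tf_pl F _ _).2 rfl⟩

theorem tf_ii (F : TF) (r : F.T × Srt → Prop) (t : F.T) (h : II F.R r (t, .pl)) : F.two t := by
  by_contra hc
  have key : ∀ v, F.R (t, .pl) v → Dead F.R v → v = (t, .d0) := by
    rintro ⟨s, d⟩ h1 h2
    rw [tf_dead] at h2
    rcases h2 with rfl | rfl
    · obtain rfl : s = t := h1
      rfl
    · exact (hc h1.2).elim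
  obtain ⟨⟨v, h1, h2, h3⟩, ⟨v', h4, h5, h6⟩⟩ := h
  rw [key v h1 h2] at h3
  rw [key v' h4 h5] at h6
  exact h6 h3

theorem tf_ii' (F : TF) (r : F.T × Srt → Prop) (t : F.T) (h : F.two t) (h0 : ¬ r (t, .d0))
    (h1 : r (t, .d1)) : II F.R r (t, .pl) :=
  ⟨⟨(t, .d1), ⟨rfl, h⟩, (tf_dead F _ _).2 (Or.inr rfl), h1⟩,
    ⟨(t, .d0), rfl, (tf_dead F _ _).2 (Or.inl rfl), h0⟩⟩

/-! ### Formulas of the logic -/

def q : Fm := .var 0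

theorem mem_of {a : Fm} (h : ∀ (F : TF), F.Cpl → ∀ (V : ℕ → F.T × Srt → Prop) (t : F.T),
    Sat F.R V (t, .pl) a) : Fm.imp fPl a ∈ L := by
  rintro F hF V ⟨t, c⟩ hc
  obtain rfl := (tf_pl F t c).1 (sat_fPl.1 hc)
  exact h F hF V t

theorem ax1 : Fm.imp fPl (.imp q (fG (fP q))) ∈ L := mem_of fun F _ V t => by
  simp only [sat_imp, sat_fG, sat_fP, tf_fr]
  rintro h _ ⟨s, rfl, hs⟩
  exact ⟨(t, .pl), (tf_pr F _ _).2 ⟨t, rfl, hs⟩, h⟩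

theorem ax2 : Fm.imp fPl (.imp q (fH (fF q))) ∈ L := mem_of fun F _ V t => by
  simp only [sat_imp, sat_fH, sat_fF, tf_pr]
  rintro h _ ⟨s, rfl, hs⟩
  exact ⟨(t, .pl), (tf_fr F _ _).2 ⟨t, rfl, hs⟩, h⟩

theorem ax3 : Fm.imp fPl (.imp (fF (fF q)) (fF q)) ∈ L := mem_of fun F _ V t => by
  simp only [sat_imp, sat_fF, tf_fr]
  rintro ⟨_, ⟨s, rfl, hs⟩, z, hz, hz'⟩
  obtain ⟨s', rfl, hs'⟩ := (tf_fr F _ _).1 hz
  exact ⟨_, ⟨s', rfl, F.trans _ _ _ hs hs'⟩, hz'⟩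

theorem ax4 : Fm.imp fPl (.imp (fP (fF q)) ((fP q).disj (q.disj (fF q)))) ∈ L :=
  mem_of fun F _ V t => by
  simp only [sat_imp, sat_fF, sat_fP, sat_disj, tf_fr, tf_pr]
  rintro ⟨_, ⟨s, rfl, -⟩, z, hz, hz'⟩
  obtain ⟨s', rfl, -⟩ := (tf_fr F _ _).1 hz
  rcases F.tri s' t with h | rfl | h
  · exact Or.inl ⟨_, ⟨s', rfl, h⟩, hz'⟩
  · exact Or.inr (Or.inl hz')
  · exact Or.inr (Or.inr ⟨_, ⟨s', rfl, h⟩, hz'⟩)

theorem ax5 : Fm.imp fPl (.imp (fF (fP q)) ((fP q).disj (q.disj (fF q)))) ∈ L :=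
  mem_of fun F _ V t => by
  simp only [sat_imp, sat_fF, sat_fP, sat_disj, tf_fr, tf_pr]
  rintro ⟨_, ⟨s, rfl, -⟩, z, hz, hz'⟩
  obtain ⟨s', rfl, -⟩ := (tf_pr F _ _).1 hz
  rcases F.tri s' t with h | rfl | h
  · exact Or.inl ⟨_, ⟨s', rfl, h⟩, hz'⟩
  · exact Or.inr (Or.inl hz')
  · exact Or.inr (Or.inr ⟨_, ⟨s', rfl, h⟩, hz'⟩)

theorem ax6 : Fm.imp fPl (.imp (fF q) (.imp (fII (.var 1))
    (fF ((fII (.var 1)).neg.conj (q.disj (fF q)))))) ∈ L :=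
  mem_of fun F _ V t => by
  simp only [sat_imp, sat_fF, sat_disj, sat_conj, sat_neg, sat_fII, tf_fr]
  rintro ⟨_, ⟨s, rfl, hs⟩, hs'⟩ h2
  obtain ⟨v, h3, h4, h5⟩ := F.fo _ _ hs
  rcases h4 with rfl | h4
  · exact (h3 (tf_ii F _ _ h2)).elim
  · refine ⟨_, ⟨v, rfl, h4⟩, fun h => h3 (tf_ii F _ _ h), ?_⟩
    rcases h5 with rfl | h5
    · exact Or.inl hs'
    · exact Or.inr ⟨_, (tf_fr F _ _).2 ⟨s, rfl, h5⟩, hs'⟩

theorem ax7 : Fm.imp fPl (.imp (fF q) (.imp (fG (.imp q (fF q)))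
    (fF ((fF q).neg.conj ((fH (fF q)).conj (fII (.var 1)).neg))))) ∈ L :=
  mem_of fun F hF V t => by
  simp only [sat_imp, sat_fF, sat_fG, sat_fH, sat_conj, sat_neg, sat_fII, tf_fr]
  rintro ⟨_, ⟨s, rfl, hs⟩, hs'⟩ h2
  obtain ⟨y, h3, h4, h5⟩ := hF (fun a => F.lt t a ∧ Sat F.R V (a, .pl) q) ⟨⟨s, hs, hs'⟩, by
    rintro a ⟨ha, ha'⟩
    obtain ⟨z, hz, hz'⟩ := h2 _ ⟨a, rfl, ha⟩ ha'
    obtain ⟨b, rfl, hb⟩ := (tf_fr F _ _).1 hz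
    exact ⟨b, ⟨F.trans _ _ _ ha hb, hz'⟩, hb⟩⟩
  have hty : F.lt t y := F.trans _ _ _ hs (h4 s ⟨hs, hs'⟩)
  refine ⟨_, ⟨y, rfl, hty⟩, ?_, ?_, fun h => h3 (tf_ii F _ _ h)⟩
  · rintro ⟨z, hz, hz'⟩
    obtain ⟨b, rfl, hb⟩ := (tf_fr F _ _).1 hz
    exact F.irr _ (F.trans _ _ _ hb (h4 b ⟨F.trans _ _ _ hty hb, hz'⟩))
  · intro z hz
    obtain ⟨b, rfl, hb⟩ := (tf_pr F _ _).1 hz
    obtain ⟨a, ha, ha'⟩ := h5 b hb
    exact ⟨_, (tf_fr F _ _).2 ⟨a, rfl, ha'⟩, ha.2⟩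

/-! ### Arbitrary Kripke frames for the logic -/

section Kripke
variable {W : Type u} {R : W → W → Prop} (hR : FrameFor L R)

def val (Q r : W → Prop) : ℕ → W → Prop := fun n => if n = 0 then Q else r

def Inf (R : W → W → Prop) (a : W) : Prop :=
  ∃ Q : W → Prop, Q a ∧ ∀ b, Q b → ∃ c, Fr R b c ∧ Q c

theorem Inf.step {a : W} (h : Inf R a) : ∃ c, Fr R a c ∧ Inf R c := by
  obtain ⟨Q, h1, h2⟩ := h
  obtain ⟨c, h3, h4⟩ := h2 a h1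
  exact ⟨c, h3, Q, h4, h2⟩

theorem Inf.back {a c : W} (h : Fr R a c) (hc : Inf R c) : Inf R a := by
  refine ⟨fun b => ∃ c, Fr R b c ∧ Inf R c, ⟨c, h, hc⟩, ?_⟩
  rintro b ⟨c, h1, h2⟩
  exact ⟨c, h1, h2.step⟩

theorem Pr.pl {x y : W} (h : Pr R x y) : Pl R y := by
  obtain ⟨_, _, _, _, _, _, _, h⟩ := h
  exact h

include hR

theorem k1 {x y : W} (hx : Pl R x) (h : Fr R x y) : Pr R y x := by
  have := hR _ ax1 (fun _ z => z = x) x (sat_fPl.2 hx) rfl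
  simp only [sat_fG, sat_fP, q, sat_var] at this
  obtain ⟨z, hz, rfl⟩ := this y h
  exact hz

theorem k2 {x y : W} (hx : Pl R x) (h : Pr R x y) : Fr R y x := by
  have := hR _ ax2 (fun _ z => z = x) x (sat_fPl.2 hx) rfl
  simp only [sat_fH, sat_fF, q, sat_var] at this
  obtain ⟨z, hz, rfl⟩ := this y h
  exact hz

theorem k3 {x y z : W} (hx : Pl R x) (h : Fr R x y) (h' : Fr R y z) : Fr R x z := by
  have := hR _ ax3 (fun _ a => a = z) x (sat_fPl.2 hx)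
  simp only [sat_imp, sat_fF, q, sat_var] at this
  obtain ⟨_, hz, rfl⟩ := this ⟨y, h, z, h', rfl⟩
  exact hz

theorem k4 {x y z : W} (hx : Pl R x) (h : Pr R x y) (h' : Fr R y z) :
    Pr R x z ∨ x = z ∨ Fr R x z := by
  have := hR _ ax4 (fun _ a => a = z) x (sat_fPl.2 hx)
  simp only [sat_imp, sat_fF, sat_fP, sat_disj, q, sat_var] at this
  simpa using this ⟨y, h, z, h', rfl⟩

theorem k5 {x y z : W} (hx : Pl R x) (h : Fr R x y) (h' : Pr R y z) :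
    Pr R x z ∨ x = z ∨ Fr R x z := by
  have := hR _ ax5 (fun _ a => a = z) x (sat_fPl.2 hx)
  simp only [sat_imp, sat_fF, sat_fP, sat_disj, q, sat_var] at this
  simpa using this ⟨y, h, z, h', rfl⟩

theorem k6 (r : W → Prop) {x y : W} (hx : Pl R x) (h : Fr R x y) (h' : II R r x) :
    ∃ v, Fr R x v ∧ ¬ II R r v ∧ (v = y ∨ Fr R v y) := by
  have := hR _ ax6 (val (fun a => a = y) r) x (sat_fPl.2 hx)
  simp only [sat_imp, sat_fF, sat_conj, sat_neg, sat_fII, sat_disj, q, sat_var, val] at this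
  simpa using this ⟨y, h, by simp⟩ (by simpa using h')

theorem k7 (r : W → Prop) {x : W} (hx : Pl R x) (h : Inf R x) :
    ∃ y, Fr R x y ∧ ¬ Inf R y ∧ (∀ z, Pr R y z → Inf R z) ∧ ¬ II R r y := by
  have := hR _ ax7 (val (Inf R) r) x (sat_fPl.2 hx)
  simp only [sat_imp, sat_fF, sat_fG, sat_fH, sat_conj, sat_neg, sat_fII, q, sat_var, val,
    if_true, one_ne_zero, if_false] at this
  obtain ⟨y, h1, h2, h3, h4⟩ := this h.step (fun y _ hy => hy.step)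
  refine ⟨y, h1, fun h => h2 h.step, fun z hz => ?_, h4⟩
  obtain ⟨c, h5, h6⟩ := h3 z hz
  exact Inf.back h5 h6

/-- the part of the frame below a last point -/
theorem in_fr {x : W} (hx : Pl R x) (hl : ∀ y, ¬ Fr R x y) {a b : W} (ha : a = x ∨ Pr R x a)
    (h : Fr R a b) : b = x ∨ Pr R x b := by
  rcases ha with rfl | ha
  · exact (hl b h).elim
  · rcases k4 hR hx ha h with h1 | h1 | h1
    · exact Or.inr h1
    · exact Or.inl h1.symm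
    · exact (hl b h1).elim

theorem in_pr {x : W} (hx : Pl R x) {a b : W} (ha : a = x ∨ Pr R x a)
    (h : Pr R a b) : Pr R x b := by
  rcases ha with rfl | ha
  · exact h
  · exact k1 hR h.pl (k3 hR h.pl (k2 hR ha.pl h) (k2 hR hx ha))

theorem in_tri {x : W} (hx : Pl R x) {a b : W} (ha : a = x ∨ Pr R x a) (hb : b = x ∨ Pr R x b) :
    Pr R a b ∨ a = b ∨ Fr R a b := by
  rcases ha with rfl | ha
  · rcases hb with rfl | hb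
    · exact Or.inr (Or.inl rfl)
    · exact Or.inl hb
  · rcases hb with rfl | hb
    · exact Or.inr (Or.inr (k2 hR hx ha))
    · exact k5 hR ha.pl (k2 hR hx ha) hb

end Kripke

/-! ### Bisimulations and the derived relations -/

section Bis
variable {σ : Finset ℕ} {W₁ W₂ : Type u} {R₁ : W₁ → W₁ → Prop} {V₁ : ℕ → W₁ → Prop}
    {R₂ : W₂ → W₂ → Prop} {V₂ : ℕ → W₂ → Prop} {Z : W₁ → W₂ → Prop}
    (hZ : IsBisim σ R₁ V₁ R₂ V₂ Z)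
include hZ

theorem b_pl {a : W₁} {b : W₂} (h : Z a b) : Pl R₁ a ↔ Pl R₂ b := by
  simpa using bisim_sat hZ fPl (by simp [fPl, fDead]) a b h

theorem b_mi {a : W₁} {b : W₂} (h : Z a b) : Mi R₁ a ↔ Mi R₂ b := by
  simpa using bisim_sat hZ fMi (by simp [fMi, fPl, fDead]) a b h

theorem b_fr {a a' : W₁} {b : W₂} (h : Z a b) (h' : Fr R₁ a a') : ∃ b', Fr R₂ b b' ∧ Z a' b' := by
  obtain ⟨b', h1, h2⟩ := (hZ a b h).2.1 a' h'.1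
  exact ⟨b', ⟨h1, (b_pl hZ h2).1 h'.2⟩, h2⟩

theorem b_pr {a a' : W₁} {b : W₂} (h : Z a b) (h' : Pr R₁ a a') : ∃ b', Pr R₂ b b' ∧ Z a' b' := by
  obtain ⟨c, d, h1, h2, h3, h4, h5, h6⟩ := h'
  obtain ⟨c', k1, k2⟩ := (hZ a b h).2.1 c h1
  obtain ⟨d', k3, k4⟩ := (hZ c c' k2).2.1 d h3
  obtain ⟨b', k5, k6⟩ := (hZ d d' k4).2.1 a' h5
  exact ⟨b', ⟨c', d', k1, (b_mi hZ k2).1 h2, k3, (b_mi hZ k4).1 h4, k5, (b_pl hZ k6).1 h6⟩, k6⟩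

theorem b_inf {a : W₁} {b : W₂} (h : Z a b) (h' : Inf R₁ a) : Inf R₂ b := by
  refine ⟨fun b => ∃ a, Z a b ∧ Inf R₁ a, ⟨a, h, h'⟩, ?_⟩
  rintro b ⟨a, h1, h2⟩
  obtain ⟨c, h3, h4⟩ := h2.step
  obtain ⟨c', h5, h6⟩ := b_fr hZ h1 h3
  exact ⟨c', h5, c, h6, h4⟩

end Bis

/-! ### The two formulas -/

def phi1 : Fm := fPl.conj ((fG .bot).conj (((Fm.imp q (fII (.var 1))).conj
  (fH (.imp q (fII (.var 1))))).conj
  (fP ((fG (Fm.var 2).neg).conj (q.neg.conj (fF ((fH (.var 2)).conj q.neg)))))))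

def psi2 : Fm := fPl.conj ((fG .bot).conj ((Fm.imp q.neg (fII (.var 3))).conj
  (fH (.imp q.neg (fII (.var 3))))))

theorem sig_inter : phi1.sig ∩ psi2.neg.sig = {0} := by
  decide

theorem no_bisim {W₁ : Type u} {R₁ : W₁ → W₁ → Prop} {V₁ : ℕ → W₁ → Prop} {x₁ : W₁}
    {W₂ : Type u} {R₂ : W₂ → W₂ → Prop} {V₂ : ℕ → W₂ → Prop} {x₂ : W₂} {Z : W₁ → W₂ → Prop}
    (h₁ : FrameFor L R₁) (h₂ : FrameFor L R₂) (hZ : IsBisim {0} R₁ V₁ R₂ V₂ Z)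
    (hx : Z x₁ x₂) (s₁ : Sat R₁ V₁ x₁ phi1) (s₂ : Sat R₂ V₂ x₂ psi2) : False := by
  simp only [phi1, psi2, sat_conj, sat_fPl, sat_fG, sat_fH, sat_fP, sat_fF, sat_imp, sat_neg,
    sat_fII, q, sat_var, sat_bot] at s₁ s₂
  obtain ⟨p1, l1, ⟨c1, c1'⟩, s, hs, g, ns, t, hst, hc, nt⟩ := s₁
  obtain ⟨p2, l2, c2, c2'⟩ := s₂
  have C1 : ∀ a, a = x₁ ∨ Pr R₁ x₁ a → V₁ 0 a → II R₁ (V₁ 1) a := by
    rintro a (rfl | h)
    · exact c1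
    · exact c1' a h
  have C2 : ∀ a, a = x₂ ∨ Pr R₂ x₂ a → ¬ V₂ 0 a → II R₂ (V₂ 3) a := by
    rintro a (rfl | h)
    · exact c2
    · exact c2' a h
  have col : ∀ a b, Z a b → (V₁ 0 a ↔ V₂ 0 b) := fun a b h => (hZ a b h).1 0 (by simp)
  obtain ⟨s', hs', zs⟩ := b_pr hZ hx hs
  obtain ⟨t', hst', zt⟩ := b_fr hZ zs hst
  have it : t = x₁ ∨ Pr R₁ x₁ t := in_fr h₁ p1 l1 (Or.inr hs) hst
  have it' : t' = x₂ ∨ Pr R₂ x₂ t' := in_fr h₂ p2 l2 (Or.inr hs') hst'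
  obtain ⟨u', hu1, hu2, hu3⟩ := k6 h₂ (V₂ 3) hs'.pl hst'
    (C2 s' (Or.inr hs') (fun h => ns ((col _ _ zs).2 h)))
  have hu4 : Fr R₂ u' t' := by
    rcases hu3 with rfl | h
    · exact (hu2 (C2 _ it' (fun h => nt ((col _ _ zt).2 h)))).elim
    · exact h
  obtain ⟨v, hv, zv⟩ := b_fr hZ.flip zs hu1
  obtain ⟨v0, hv0, zv0⟩ := b_pr hZ.flip zt (k1 h₂ hu1.2 hu4)
  have iv : v = x₁ ∨ Pr R₁ x₁ v := in_fr h₁ p1 l1 (Or.inr hs) hv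
  have iv0 : v0 = x₁ ∨ Pr R₁ x₁ v0 := Or.inr (in_pr h₁ p1 it hv0)
  have hvv : Fr R₁ v0 v := by
    rcases in_tri h₁ p1 iv0 iv with h | h | h
    · exact (g v0 (k3 h₁ hs.pl hv (k2 h₁ hv0.pl h)) (hc v0 hv0)).elim
    · exact (g v hv (h ▸ hc v0 hv0)).elim
    · exact h
  have inf1 : Inf R₁ v0 := by
    refine ⟨fun a => ∃ a' b, Fr R₁ a a' ∧ Z a b ∧ Z a' b, ⟨v, u', hvv, zv0, zv⟩, ?_⟩
    rintro a ⟨a', b, e1, e2, e3⟩
    obtain ⟨b', e4, e5⟩ := b_fr hZ e2 e1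
    obtain ⟨a'', e6, e7⟩ := b_fr hZ.flip e3 e4
    exact ⟨a', e1, a'', b', e6, e5, e7⟩
  have inf2 : Inf R₂ u' := b_inf hZ zv0 inf1
  obtain ⟨y1, f1, f2, f3, f4⟩ := k7 h₁ (V₁ 1) hv0.pl inf1
  obtain ⟨y2, e1, e2, e3, e4⟩ := k7 h₂ (V₂ 3) hu1.2 inf2
  have iy1 := in_fr h₁ p1 l1 iv0 f1
  have iy2 := in_fr h₂ p2 l2 (in_fr h₂ p2 l2 (Or.inr hs') hu1) e1
  have hz : ∃ z, (z = x₂ ∨ Pr R₂ x₂ z) ∧ Z y1 z := by
    rcases iy1 with rfl | h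
    · exact ⟨x₂, Or.inl rfl, hx⟩
    · obtain ⟨z, h1, h2⟩ := b_pr hZ hx h
      exact ⟨z, Or.inr h1, h2⟩
  obtain ⟨z, iz, zz⟩ := hz
  rcases in_tri h₂ p2 iz iy2 with h | rfl | h
  · obtain ⟨a, ha, za⟩ := b_pr hZ.flip zz h
    exact e2 (b_inf hZ za (f3 a ha))
  · by_cases hp : V₁ 0 y1
    · exact f4 (C1 y1 iy1 hp)
    · exact e4 (C2 z iz (fun h => hp ((col _ _ zz).2 h)))
  · have pz : Pl R₂ z := (b_pl hZ zz).1 f1.2
    exact f2 (b_inf hZ.flip zz (e3 z (k1 h₂ pz h)))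

end Pool.Agent.H300Z.Modal.SC
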