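import Pool.Agent.H300Z.Modal.Basic

/-!
# The logic of transitive conversely well-founded frames has the Kripke criterion but is not
strongly Kripke complete
-/

set_option autoImplicit false

namespace Pool.Agent.H300Z.Modal.GL

open Pool.Agent.H300Z.Modal

universe u

structure Fr where
  W : Type
  R : W → W → Prop
  trans : ∀ a b c, R a b → R b c → R a c
  wf : WellFounded (fun a b => R b a)

def L : Set Fm := {a | ∀ F : Fr, True → ∀ (V : ℕ → F.W → Prop) (w : F.W), Sat F.R V w a}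

theorem normal : IsNormal L := isNormal_log (fun F : Fr => F.W) (fun F => F.R) (fun _ => True)

theorem frameFor (F : Fr) : FrameFor L F.R := fun _ ha V w => ha F trivial V w

/-- pointed models -/
structure PM where
  F : Fr
  V : ℕ → F.W → Prop
  w : F.W

def PM.sat (M : PM) (a : Fm) : Prop := Sat M.F.R M.V M.w a

def PM.at (M : PM) (v : M.F.W) : PM := ⟨M.F, M.V, v⟩

def Sep (σ : Finset ℕ) (P Q : PM → Prop) : Prop :=
  ∃ i : Fm, i.sig ⊆ σ ∧ (∀ M, P M → M.sat i) ∧ (∀ M, Q M → ¬ M.sat i)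

theorem Sep.symm {σ : Finset ℕ} {P Q : PM → Prop} (h : Sep σ P Q) : Sep σ Q P := by
  obtain ⟨i, h1, h2, h3⟩ := h
  exact ⟨i.neg, by simpa using h1, fun M hM => h3 M hM, fun M hM h => h (h2 M hM)⟩

theorem Sep.mono {σ : Finset ℕ} {P Q P' Q' : PM → Prop} (h : Sep σ P Q)
    (hP : ∀ M, P' M → P M) (hQ : ∀ M, Q' M → Q M) : Sep σ P' Q' := by
  obtain ⟨i, h1, h2, h3⟩ := h
  exact ⟨i, h1, fun M hM => h2 M (hP M hM), fun M hM => h3 M (hQ M hM)⟩

theorem sep_empty {σ : Finset ℕ} {P Q : PM → Prop} (h : ∀ M, ¬ P M) : Sep σ P Q :=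
  ⟨.bot, by simp, fun M hM => (h M hM).elim, fun M _ => by simp [PM.sat]⟩

theorem Sep.union {σ : Finset ℕ} {P P' Q : PM → Prop} (h : Sep σ P Q) (h' : Sep σ P' Q) :
    Sep σ (fun M => P M ∨ P' M) Q := by
  obtain ⟨i, h1, h2, h3⟩ := h
  obtain ⟨j, h4, h5, h6⟩ := h'
  refine ⟨i.disj j, by simp [Finset.union_subset_iff, h1, h4], ?_, ?_⟩
  · rintro M (hM | hM)
    · exact (sat_disj _ _).2 (Or.inl (h2 M hM))
    · exact (sat_disj _ _).2 (Or.inr (h5 M hM))
  · intro M hM h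
    rcases (sat_disj _ _).1 h with h | h
    · exact h3 M hM h
    · exact h6 M hM h

theorem sep_biUnion {σ : Finset ℕ} {α : Type} (s : Finset α) (P : α → PM → Prop) (Q : PM → Prop)
    (h : ∀ a ∈ s, Sep σ (P a) Q) : Sep σ (fun M => ∃ a ∈ s, P a M) Q := by
  classical
  induction s using Finset.induction_on with
  | empty => exact sep_empty (by simp)
  | insert a s ha ih =>
    have h1 := (h a (by simp)).union (ih (fun b hb => h b (by simp [hb])))
    refine h1.mono ?_ (fun _ h => h)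
    rintro M ⟨b, hb, hM⟩
    rcases Finset.mem_insert.1 hb with rfl | hb
    · exact Or.inl hM
    · exact Or.inr ⟨b, hb, hM⟩

open Classical in
noncomputable def ty (S : Finset Fm) (M : PM) : Finset Fm := S.filter (fun a => M.sat a)

theorem mem_ty {S : Finset Fm} {M : PM} {a : Fm} : a ∈ ty S M ↔ a ∈ S ∧ M.sat a := by
  classical
  simp [ty]

theorem refine_left {σ : Finset ℕ} (S : Finset Fm) {P Q : PM → Prop} (h : ¬ Sep σ P Q) :
    ∃ A, ¬ Sep σ (fun M => P M ∧ ty S M = A) Q := by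
  classical
  by_contra hc
  push Not at hc
  apply h
  have := sep_biUnion S.powerset (fun A M => P M ∧ ty S M = A) Q (fun A _ => hc A)
  refine this.mono ?_ (fun _ h => h)
  intro M hM
  exact ⟨ty S M, Finset.mem_powerset.2 (fun a ha => (mem_ty.1 ha).1), hM, rfl⟩

theorem refine_both {σ : Finset ℕ} (S T : Finset Fm) {P Q : PM → Prop} (h : ¬ Sep σ P Q) :
    ∃ M N, P M ∧ Q N ∧ ¬ Sep σ (fun K => ty S K = ty S M) (fun K => ty T K = ty T N) := by
  obtain ⟨A, hA⟩ := refine_left S h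
  obtain ⟨B, hB⟩ := refine_left T (fun h => hA h.symm)
  have h1 : ∃ N, Q N ∧ ty T N = B := by
    by_contra hc
    exact hB (sep_empty (fun M hM => hc ⟨M, hM⟩))
  have h2 : ∃ M, P M ∧ ty S M = A := by
    by_contra hc
    exact hA (sep_empty (fun M hM => hc ⟨M, hM⟩))
  obtain ⟨N, hN, rfl⟩ := h1
  obtain ⟨M, hM, rfl⟩ := h2
  exact ⟨M, N, hM, hN, fun h => hB (h.symm.mono (fun _ h => h.2) (fun _ h => h.2))⟩

def Closed (S : Finset Fm) : Prop :=
  (∀ a b, Fm.imp a b ∈ S → a ∈ S ∧ b ∈ S) ∧ (∀ a, Fm.box a ∈ S → a ∈ S)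

theorem exists_closed (a : Fm) :
    ∃ S : Finset Fm, a ∈ S ∧ Closed S ∧ ∀ n, Fm.var n ∈ S → n ∈ a.sig := by
  classical
  induction a with
  | var n => exact ⟨{.var n}, by simp, by simp [Closed], by simp⟩
  | bot => exact ⟨{.bot}, by simp, by simp [Closed], by simp⟩
  | imp a b iha ihb =>
    obtain ⟨S, h1, h2, h3⟩ := iha
    obtain ⟨T, h4, h5, h6⟩ := ihb
    refine ⟨insert (.imp a b) (S ∪ T), by simp, ⟨?_, ?_⟩, ?_⟩
    · intro c d h
      simp only [Finset.mem_insert, Finset.mem_union, Fm.imp.injEq] at h ⊢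
      rcases h with ⟨rfl, rfl⟩ | h | h
      · exact ⟨Or.inr (Or.inl h1), Or.inr (Or.inr h4)⟩
      · exact ⟨Or.inr (Or.inl (h2.1 c d h).1), Or.inr (Or.inl (h2.1 c d h).2)⟩
      · exact ⟨Or.inr (Or.inr (h5.1 c d h).1), Or.inr (Or.inr (h5.1 c d h).2)⟩
    · intro c h
      simp only [Finset.mem_insert, Finset.mem_union, reduceCtorEq, false_or] at h ⊢
      rcases h with h | h
      · exact Or.inr (Or.inl (h2.2 c h))
      · exact Or.inr (Or.inr (h5.2 c h))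
    · intro n h
      simp only [Finset.mem_insert, Finset.mem_union, reduceCtorEq, false_or, sig_imp] at h ⊢
      exact h.imp (h3 n) (h6 n)
  | box a ih =>
    obtain ⟨S, h1, h2, h3⟩ := ih
    refine ⟨insert (.box a) S, by simp, ⟨?_, ?_⟩, ?_⟩
    · intro c d h
      simp only [Finset.mem_insert, reduceCtorEq, false_or] at h ⊢
      exact ⟨Or.inr (h2.1 c d h).1, Or.inr (h2.1 c d h).2⟩
    · intro c h
      simp only [Finset.mem_insert, Fm.box.injEq] at h ⊢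
      rcases h with rfl | h
      · exact Or.inr h1
      · exact Or.inr (h2.2 c h)
    · intro n h
      simp only [Finset.mem_insert, reduceCtorEq, false_or, sig_box] at h ⊢
      exact h3 n h

def Rel (A A' : Finset Fm) : Prop := ∀ a, Fm.box a ∈ A → a ∈ A' ∧ Fm.box a ∈ A'

def isBox : Fm → Bool
  | .box _ => true
  | _ => false

def bc (A : Finset Fm) : ℕ := (A.filter (fun a => isBox a = true)).card

theorem filter_sub {A A' : Finset Fm} (h : Rel A A') :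
    A.filter (fun a => isBox a = true) ⊆ A'.filter (fun a => isBox a = true) := by
  intro a ha
  rw [Finset.mem_filter] at ha ⊢
  cases a with
  | box b => exact ⟨(h b ha.1).2, rfl⟩
  | var n => simp [isBox] at ha
  | bot => simp [isBox] at ha
  | imp b c => simp [isBox] at ha

theorem bc_le {A A' : Finset Fm} (h : Rel A A') : bc A ≤ bc A' := Finset.card_le_card (filter_sub h)

theorem bc_lt {A A' : Finset Fm} (h : Rel A A') {a : Fm} (h1 : Fm.box a ∉ A) (h2 : Fm.box a ∈ A') :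
    bc A < bc A' := by
  apply Finset.card_lt_card
  refine ⟨filter_sub h, fun hc => h1 ?_⟩
  exact (Finset.mem_filter.1 (hc (Finset.mem_filter.2 ⟨h2, rfl⟩))).1

def Ins (σ : Finset ℕ) (S T A B : Finset Fm) : Prop :=
  ¬ Sep σ (fun K => ty S K = A) (fun K => ty T K = B)

theorem Ins.symm {σ : Finset ℕ} {S T A B : Finset Fm} (h : Ins σ S T A B) : Ins σ T S B A :=
  fun h' => h h'.symm

theorem Ins.wit {σ : Finset ℕ} {S T A B : Finset Fm} (h : Ins σ S T A B) : ∃ M, ty S M = A := by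
  by_contra hc
  exact h (sep_empty (fun M hM => hc ⟨M, hM⟩))

theorem step {σ : Finset ℕ} {S T A B : Finset Fm} (hS : Closed S) (hT : Closed T)
    (h : Ins σ S T A B) {c : Fm} (h1 : Fm.box c ∈ S) (h2 : Fm.box c ∉ A) :
    ∃ A' B', Ins σ S T A' B' ∧ Rel A A' ∧ Rel B B' ∧ Fm.box c ∈ A' ∧ c ∉ A' := by
  have key : ¬ Sep σ (fun M => (∀ a, Fm.box a ∈ A → M.sat a ∧ M.sat (.box a)) ∧ M.sat (.box c) ∧
      ¬ M.sat c) (fun M => ∀ a, Fm.box a ∈ B → M.sat a ∧ M.sat (.box a)) := by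
    rintro ⟨i, hi1, hi2, hi3⟩
    refine h ⟨i.dia, by simpa using hi1, ?_, ?_⟩
    · rintro M rfl
      have h3 : ¬ M.sat (.box c) := fun h => h2 (mem_ty.2 ⟨h1, h⟩)
      simp only [PM.sat, sat_box, not_forall] at h3
      obtain ⟨v0, hv0, hv0'⟩ := h3
      obtain ⟨v, ⟨hv, hv'⟩, hmin⟩ := M.F.wf.has_min
        {v | M.F.R M.w v ∧ ¬ Sat M.F.R M.V v c} ⟨v0, hv0, hv0'⟩
      refine (sat_dia _).2 ⟨v, hv, hi2 (M.at v) ⟨?_, ?_, hv'⟩⟩
      · intro a ha
        have := (mem_ty.1 ha).2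
        exact ⟨this v hv, fun z hz => this z (M.F.trans _ _ _ hv hz)⟩
      · intro z hz
        by_contra hc
        exact hmin z ⟨M.F.trans _ _ _ hv hz, hc⟩ hz
    · rintro M rfl h
      obtain ⟨v, hv, hv'⟩ := (sat_dia _).1 h
      refine hi3 (M.at v) ?_ hv'
      intro a ha
      have := (mem_ty.1 ha).2
      exact ⟨this v hv, fun z hz => this z (M.F.trans _ _ _ hv hz)⟩
  obtain ⟨M, N, hM, hN, hMN⟩ := refine_both S T key
  obtain ⟨M0, rfl⟩ := h.wit
  obtain ⟨N0, rfl⟩ := h.symm.wit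
  refine ⟨ty S M, ty T N, hMN, ?_, ?_, mem_ty.2 ⟨h1, hM.2.1⟩, fun h => hM.2.2 (mem_ty.1 h).2⟩
  · intro a ha
    exact ⟨mem_ty.2 ⟨hS.2 a (mem_ty.1 ha).1, (hM.1 a ha).1⟩,
      mem_ty.2 ⟨(mem_ty.1 ha).1, (hM.1 a ha).2⟩⟩
  · intro a ha
    exact ⟨mem_ty.2 ⟨hT.2 a (mem_ty.1 ha).1, (hN a ha).1⟩,
      mem_ty.2 ⟨(mem_ty.1 ha).1, (hN a ha).2⟩⟩

theorem var_agree {σ : Finset ℕ} {S T A B : Finset Fm} (h : Ins σ S T A B) {n : ℕ} (hn : n ∈ σ)
    (h1 : Fm.var n ∈ S) (h2 : Fm.var n ∈ B) : Fm.var n ∈ A := by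
  by_contra hc
  refine h ⟨(Fm.var n).neg, by simpa using hn, ?_, ?_⟩
  · rintro M rfl h
    exact hc (mem_ty.2 ⟨h1, h⟩)
  · rintro M rfl h
    exact h (mem_ty.1 h2).2

def canon (σ : Finset ℕ) (S T : Finset Fm) : Fr where
  W := {p : Finset Fm × Finset Fm // Ins σ S T p.1 p.2}
  R p q := Rel p.1.1 q.1.1 ∧ Rel p.1.2 q.1.2 ∧ bc p.1.1 + bc p.1.2 < bc q.1.1 + bc q.1.2
  trans a b c h1 h2 :=
    ⟨fun x hx => h2.1 x (h1.1 x hx).2, fun x hx => h2.2.1 x (h1.2.1 x hx).2, h1.2.2.trans h2.2.2⟩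
  wf := by
    have hb : ∀ p : {p : Finset Fm × Finset Fm // Ins σ S T p.1 p.2},
        bc p.1.1 + bc p.1.2 ≤ S.card + T.card := by
      intro p
      obtain ⟨M, hM⟩ := p.2.wit
      obtain ⟨N, hN⟩ := p.2.symm.wit
      have h1 : bc p.1.1 ≤ S.card := Finset.card_le_card (fun a ha => by
        have := (Finset.mem_filter.1 ha).1
        rw [← hM] at this
        exact (mem_ty.1 this).1)
      have h2 : bc p.1.2 ≤ T.card := Finset.card_le_card (fun a ha => by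
        have := (Finset.mem_filter.1 ha).1
        rw [← hN] at this
        exact (mem_ty.1 this).1)
      omega
    refine Subrelation.wf (r := InvImage (· < ·)
      (fun p : {p : Finset Fm × Finset Fm // Ins σ S T p.1 p.2} =>
        S.card + T.card - (bc p.1.1 + bc p.1.2))) ?_ (InvImage.wf _ Nat.lt_wfRel.wf)
    intro a b h
    have := hb a
    have := h.2.2
    simp only [InvImage]
    omega

def canonV (σ : Finset ℕ) (S T : Finset Fm) : ℕ → (canon σ S T).W → Prop :=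
  fun n p => Fm.var n ∈ p.1.1 ∨ Fm.var n ∈ p.1.2

theorem truth_left {σ : Finset ℕ} {S T : Finset Fm} (hS : Closed S) (hT : Closed T)
    (hσ : ∀ n, Fm.var n ∈ S → Fm.var n ∈ T → n ∈ σ) (a : Fm) (ha : a ∈ S) :
    ∀ p : (canon σ S T).W, Sat (canon σ S T).R (canonV σ S T) p a ↔ a ∈ p.1.1 := by
  induction a with
  | var n =>
    intro p
    refine ⟨fun h => h.elim id (fun h => var_agree p.2 (hσ n ha ?_) ha h), Or.inl⟩
    obtain ⟨N, hN⟩ := p.2.symm.wit
    rw [← hN] at h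
    exact (mem_ty.1 h).1
  | bot =>
    intro p
    obtain ⟨M, hM⟩ := p.2.wit
    rw [← hM, mem_ty]
    simp [PM.sat]
  | imp a b iha ihb =>
    intro p
    obtain ⟨M, hM⟩ := p.2.wit
    have h := hS.1 a b ha
    rw [sat_imp, iha h.1, ihb h.2, ← hM]
    simp [mem_ty, ha, h.1, h.2, PM.sat]
  | box a ih =>
    intro p
    have h := hS.2 a ha
    constructor
    · intro h1
      by_contra hc
      obtain ⟨A', B', h2, h3, h4, h5, h6⟩ := step hS hT p.2 ha hc
      have := bc_lt h3 hc h5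
      have := bc_le h4
      exact h6 ((ih h ⟨(A', B'), h2⟩).1 (h1 ⟨(A', B'), h2⟩ ⟨h3, h4, by dsimp only; omega⟩))
    · intro h1 q hq
      exact (ih h q).2 (hq.1 a h1).1

theorem truth_right {σ : Finset ℕ} {S T : Finset Fm} (hS : Closed S) (hT : Closed T)
    (hσ : ∀ n, Fm.var n ∈ S → Fm.var n ∈ T → n ∈ σ) (a : Fm) (ha : a ∈ T) :
    ∀ p : (canon σ S T).W, Sat (canon σ S T).R (canonV σ S T) p a ↔ a ∈ p.1.2 := by
  induction a with
  | var n =>
    intro p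
    refine ⟨fun h => h.elim (fun h => var_agree p.2.symm (hσ n ?_ ha) ha h) id, Or.inr⟩
    obtain ⟨N, hN⟩ := p.2.wit
    rw [← hN] at h
    exact (mem_ty.1 h).1
  | bot =>
    intro p
    obtain ⟨M, hM⟩ := p.2.symm.wit
    rw [← hM, mem_ty]
    simp [PM.sat]
  | imp a b iha ihb =>
    intro p
    obtain ⟨M, hM⟩ := p.2.symm.wit
    have h := hT.1 a b ha
    rw [sat_imp, iha h.1, ihb h.2, ← hM]
    simp [mem_ty, ha, h.1, h.2, PM.sat]
  | box a ih =>
    intro p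
    have h := hT.2 a ha
    constructor
    · intro h1
      by_contra hc
      obtain ⟨B', A', h2, h3, h4, h5, h6⟩ := step hT hS p.2.symm ha hc
      have := bc_lt h3 hc h5
      have := bc_le h4
      exact h6 ((ih h ⟨(A', B'), h2.symm⟩).1
        (h1 ⟨(A', B'), h2.symm⟩ ⟨h4, h3, by dsimp only; omega⟩))
    · intro h1 q hq
      exact (ih h q).2 (hq.2.1 a h1).1

theorem model_of_no_interpolant {a₁ a₂ : Fm} (h : ¬ ∃ i, IsInterpolant L a₁ a₂ i) :
    ∃ M : PM, M.sat a₁ ∧ ¬ M.sat a₂ := by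
  obtain ⟨S, h1, hS, h2⟩ := exists_closed a₁
  obtain ⟨T, h3, hT, h4⟩ := exists_closed a₂
  have key : ¬ Sep (a₁.sig ∩ a₂.sig) (fun M => M.sat a₁) (fun M => ¬ M.sat a₂) := by
    rintro ⟨i, hi1, hi2, hi3⟩
    refine h ⟨i, hi1, fun F _ V w hw => hi2 ⟨F, V, w⟩ hw, fun F _ V w hw => ?_⟩
    by_contra hc
    exact hi3 ⟨F, V, w⟩ hc hw
  obtain ⟨M, N, hM, hN, hMN⟩ := refine_both S T key
  have hσ : ∀ n, Fm.var n ∈ S → Fm.var n ∈ T → n ∈ a₁.sig ∩ a₂.sig :=
    fun n a b => Finset.mem_inter.2 ⟨h2 n a, h4 n b⟩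
  refine ⟨⟨canon _ S T, canonV _ S T, ⟨(ty S M, ty T N), hMN⟩⟩, ?_, ?_⟩
  · exact (truth_left hS hT hσ a₁ h1 _).2 (mem_ty.2 ⟨h1, hM⟩)
  · intro hc
    exact hN (mem_ty.1 ((truth_right hS hT hσ a₂ h3 _).1 hc)).2

theorem criterion : KripkeCriterion.{u} L := by
  intro a₁ a₂
  constructor
  · intro h
    obtain ⟨M, h1, h2⟩ := model_of_no_interpolant h
    refine ⟨ULift M.F.W, fun x y => M.F.R x.down y.down, fun n x => M.V n x.down, ⟨M.w⟩,
      ULift M.F.W, fun x y => M.F.R x.down y.down, fun n x => M.V n x.down, ⟨M.w⟩, Eq,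
      frameFor_ulift (frameFor M.F), frameFor_ulift (frameFor M.F), ?_, rfl, ?_, ?_⟩
    · rintro x _ rfl
      exact ⟨fun _ _ => Iff.rfl, fun x' h => ⟨x', h, rfl⟩, fun x' h => ⟨x', h, rfl⟩⟩
    · exact (sat_ulift _ _ _ _).2 h1
    · exact fun hc => h2 ((sat_ulift _ _ _ _).1 hc)
  · rintro ⟨W₁, R₁, V₁, x₁, W₂, R₂, V₂, x₂, Z, h1, h2, h3, h4, h5, h6⟩
    exact no_interpolant_of_bisim h1 h2 h3 h4 h5 h6

def Gam : Set Fm :=
  {a | a = (Fm.var 0).dia ∨ ∃ i, a = .box (.imp (.var i) (Fm.var (i + 1)).dia)}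

def natFr : Fr where
  W := ℕ
  R a b := b < a
  trans _ _ _ h1 h2 := h2.trans h1
  wf := Nat.lt_wfRel.wf

theorem gam_bound (l : List Fm) (hl : ∀ a ∈ l, a ∈ Gam) :
    ∃ N, ∀ a ∈ l, a = (Fm.var 0).dia ∨ ∃ i < N, a = .box (.imp (.var i) (Fm.var (i + 1)).dia) := by
  induction l with
  | nil => exact ⟨0, by simp⟩
  | cons b l ih =>
    obtain ⟨N, hN⟩ := ih (fun a ha => hl a (by simp [ha]))
    rcases hl b (by simp) with h | ⟨j, h⟩
    · refine ⟨N, fun a ha => ?_⟩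
      rcases List.mem_cons.1 ha with rfl | ha
      · exact Or.inl h
      · exact hN a ha
    · refine ⟨N + j + 1, fun a ha => ?_⟩
      rcases List.mem_cons.1 ha with rfl | ha
      · exact Or.inr ⟨j, by omega, h⟩
      · rcases hN a ha with h | ⟨i, hi, h⟩
        · exact Or.inl h
        · exact Or.inr ⟨i, by omega, h⟩

theorem gam_consistent : Consistent L Gam := by
  rintro ⟨l, hl, h⟩
  obtain ⟨N, hN⟩ := gam_bound l hl
  refine h natFr trivial (fun i (x : ℕ) => x + i = N) (N + 1 : ℕ) ((sat_conjList l).2 ?_)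
  intro a ha
  rcases hN a ha with rfl | ⟨i, hi, rfl⟩
  · exact (sat_dia _).2 ⟨(N : ℕ), Nat.lt_succ_self N, rfl⟩
  · intro (v : ℕ) _ (hv : v + i = N)
    refine (sat_dia _).2 ⟨(v - 1 : ℕ), ?_, ?_⟩
    · show v - 1 < v
      omega
    · show v - 1 + (i + 1) = N
      omega

theorem four_mem : Fm.imp (.box (.var 0)) (.box (.box (.var 0))) ∈ L :=
  fun F _ _ _ h v hv z hz => h z (F.trans _ _ _ hv hz)

theorem loeb_mem : Fm.imp (.box (.imp (.box (.var 0)) (.var 0))) (.box (.var 0)) ∈ L := by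
  intro F _ V w h v
  induction v using F.wf.induction with
  | _ v ih => exact fun hv => h v hv (fun z hz => ih z hz (F.trans _ _ _ hv hz))

theorem not_strong : ¬ StronglyComplete.{u} L := by
  intro h
  obtain ⟨W, R, V, w, hF, hΓ⟩ := h Gam gam_consistent
  have tr : ∀ v z, R w v → R v z → R w z := fun v z h1 h2 =>
    hF _ four_mem (fun _ y => R w y) w (fun _ h => h) v h1 z h2
  have h1 := hF _ loeb_mem (fun _ y => ¬ (R w y ∧ ∃ i, V i y)) w (by
    rintro v hv hb ⟨-, i, hi⟩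
    obtain ⟨z, hz, hz'⟩ := (sat_dia _).1 (hΓ _ (Or.inr ⟨i, rfl⟩) v hv hi)
    exact hb z hz ⟨tr v z hv hz, i + 1, hz'⟩)
  obtain ⟨v, hv, hv'⟩ := (sat_dia _).1 (hΓ _ (Or.inl rfl))
  exact h1 v hv ⟨hv, 0, hv'⟩

end Pool.Agent.H300Z.Modal.GL
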