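import Pool.Agent.H300Z.Modal.Fail

/-!
# The two formulas have no interpolant
-/

set_option autoImplicit false

namespace Pool.Agent.H300Z.Modal.SC

open Pool.Agent.H300Z.Modal

universe u

def depth : Fm → ℕ
  | .var _ => 0
  | .bot => 0
  | .imp a b => max (depth a) (depth b)
  | .box a => depth a + 1

theorem bounded_bisim {σ : Finset ℕ} {W₁ W₂ : Type} {R₁ : W₁ → W₁ → Prop} {V₁ : ℕ → W₁ → Prop}
    {R₂ : W₂ → W₂ → Prop} {V₂ : ℕ → W₂ → Prop} (Z : ℕ → W₁ → W₂ → Prop)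
    (h0 : ∀ k x y, Z k x y → ∀ p ∈ σ, (V₁ p x ↔ V₂ p y))
    (h1 : ∀ k x y, Z (k + 1) x y → ∀ x', R₁ x x' → ∃ y', R₂ y y' ∧ Z k x' y')
    (h2 : ∀ k x y, Z (k + 1) x y → ∀ y', R₂ y y' → ∃ x', R₁ x x' ∧ Z k x' y')
    (a : Fm) (ha : a.sig ⊆ σ) :
    ∀ k x y, depth a ≤ k → Z k x y → (Sat R₁ V₁ x a ↔ Sat R₂ V₂ y a) := by
  induction a with
  | var n => intro k x y _ h; exact h0 k x y h n (ha (by simp))
  | bot => intro k x y _ _; rfl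
  | imp a b iha ihb =>
    intro k x y hk h
    simp only [sig_imp, Finset.union_subset_iff] at ha
    simp only [depth, max_le_iff] at hk
    simp only [sat_imp, iha ha.1 k x y hk.1 h, ihb ha.2 k x y hk.2 h]
  | box a ih =>
    intro k x y hk h
    simp only [depth] at hk
    obtain ⟨k, rfl⟩ : ∃ j, k = j + 1 := ⟨k - 1, by omega⟩
    simp only [sat_box]
    constructor
    · intro h3 y' hy'
      obtain ⟨x', hx', hz⟩ := h2 k x y h y' hy'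
      exact (ih ha k x' y' (by omega) hz).1 (h3 x' hx')
    · intro h3 x' hx'
      obtain ⟨y', hy', hz⟩ := h1 k x y h x' hx'
      exact (ih ha k x' y' (by omega) hz).2 (h3 y' hy')

/-- Moments `(n, 1)` form the upper copy of `ω*`, moments `(n, 0)` the lower copy. -/
def F1 : TF where
  T := ℕ × Fin 2
  lt a b := a.2.val < b.2.val ∨ (a.2.val = b.2.val ∧ b.1 < a.1)
  two a := a.1 % 2 = 0 ∧ (a.2.val = 1 ∨ a.1 ≠ 0)
  irr a := by omega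
  trans a b c := by omega
  tri a b := by
    obtain ⟨a1, a2⟩ := a
    obtain ⟨b1, b2⟩ := b
    simp only [Prod.mk.injEq, Fin.ext_iff]
    omega
  fo s t h := by
    obtain ⟨a1, a2⟩ := s
    obtain ⟨b1, b2⟩ := t
    by_cases h1 : b1 % 2 = 0
    · refine ⟨(b1 + 1, b2), ?_⟩
      simp only [Prod.mk.injEq, Fin.ext_iff, and_true, true_and] at h ⊢
      omega
    · refine ⟨(b1, b2), ?_⟩
      simp only [Prod.mk.injEq, Fin.ext_iff, and_true, true_and, true_or] at h ⊢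
      omega

def F2 : TF where
  T := ℕ
  lt a b := b < a
  two a := a % 2 = 1
  irr a := by omega
  trans a b c := by omega
  tri a b := by omega
  fo s t h := by
    by_cases h1 : t % 2 = 1
    · exact ⟨t + 1, by omega⟩
    · exact ⟨t, by omega⟩

theorem cpl2 : F2.Cpl := by
  rintro X ⟨⟨t, ht⟩, h⟩
  exfalso
  induction t using Nat.strong_induction_on with
  | _ t ih =>
    obtain ⟨s, hs, hs'⟩ := h t ht
    exact ih s hs' hs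

theorem cpl1 : F1.Cpl := by
  rintro X ⟨⟨t, ht⟩, h⟩
  exfalso
  have up : ∀ (n : ℕ) (b : Fin 2), b.val = 1 → ¬ X (n, b) := by
    intro n
    induction n using Nat.strong_induction_on with
    | _ n ih =>
      intro b hb hX
      obtain ⟨⟨m, c⟩, hs, hs'⟩ := h _ hX
      have h1 : b.val < c.val ∨ (b.val = c.val ∧ m < n) := hs'
      exact ih m (by omega) c (by omega) hs
  have lo : ∀ (n : ℕ) (b : Fin 2), ¬ X (n, b) := by
    intro n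
    induction n using Nat.strong_induction_on with
    | _ n ih =>
      intro b hX
      obtain ⟨⟨m, c⟩, hs, hs'⟩ := h _ hX
      have h1 : b.val < c.val ∨ (b.val = c.val ∧ m < n) := hs'
      rcases h1 with h1 | h1
      · exact up m c (by omega) hs
      · exact ih m h1.2 c hs
  exact lo t.1 t.2 ht

def V1 : ℕ → F1.T × Srt → Prop
  | 0, x => x.2 = .pl ∧ F1.two x.1
  | 1, x => x.2 = .d1
  | _, x => x.1.2.val = 0 ∧ 1 ≤ x.1.1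

def V2 : ℕ → F2.T × Srt → Prop
  | 0, x => x.2 = .pl ∧ ¬ F2.two x.1
  | _, x => x.2 = .d1

theorem sat1 : Sat F1.R V1 (((0 : ℕ), (1 : Fin 2)), .pl) phi1 := by
  simp only [phi1, sat_conj, sat_fPl, sat_fG, sat_fH, sat_fP, sat_fF, sat_imp, sat_neg,
    sat_fII, q, sat_var, sat_bot]
  have key : ∀ t : F1.T, V1 0 (t, .pl) → II F1.R (V1 1) (t, .pl) :=
    fun t h => tf_ii' F1 _ t h.2 (by simp [V1]) rfl
  refine ⟨(tf_pl F1 _ _).2 rfl, ?_, ⟨key _, ?_⟩, (((1 : ℕ), (0 : Fin 2)), .pl),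
    (tf_pr F1 _ _).2 ⟨_, rfl, Or.inl Nat.zero_lt_one⟩, ?_, ?_, (((0 : ℕ), (0 : Fin 2)), .pl),
    (tf_fr F1 _ _).2 ⟨_, rfl, Or.inr ⟨rfl, Nat.zero_lt_one⟩⟩, ?_, ?_⟩
  · intro y hy
    obtain ⟨⟨n, b⟩, rfl, h⟩ := (tf_fr F1 _ _).1 hy
    have h1 : 1 < b.val ∨ (1 = b.val ∧ n < 0) := h
    omega
  · intro y hy
    obtain ⟨s, rfl, -⟩ := (tf_pr F1 _ _).1 hy
    exact key s
  · intro y hy
    obtain ⟨⟨n, b⟩, rfl, h⟩ := (tf_fr F1 _ _).1 hy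
    have h1 : 0 < b.val ∨ (0 = b.val ∧ n < 1) := h
    intro (h2 : b.val = 0 ∧ 1 ≤ n)
    omega
  · intro h
    have h1 : 1 % 2 = 0 := h.2.1
    omega
  · intro y hy
    obtain ⟨⟨n, b⟩, rfl, h⟩ := (tf_pr F1 _ _).1 hy
    have h1 : b.val < 0 ∨ (b.val = 0 ∧ 0 < n) := h
    show b.val = 0 ∧ 1 ≤ n
    omega
  · intro h
    have h1 : 0 = 1 ∨ 0 ≠ 0 := h.2.2
    omega

theorem sat2 : Sat F2.R V2 ((0 : ℕ), .pl) psi2 := by
  simp only [psi2, sat_conj, sat_fPl, sat_fG, sat_fH, sat_imp, sat_neg,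
    sat_fII, q, sat_var, sat_bot]
  have key : ∀ t : F2.T, ¬ V2 0 (t, .pl) → II F2.R (V2 3) (t, .pl) :=
    fun t h => tf_ii' F2 _ t (by by_contra hc; exact h ⟨rfl, hc⟩) (by simp [V2]) rfl
  refine ⟨(tf_pl F2 _ _).2 rfl, ?_, key _, ?_⟩
  · intro y hy
    obtain ⟨n, rfl, h⟩ := (tf_fr F2 _ _).1 hy
    exact Nat.not_lt_zero _ h
  · intro y hy
    obtain ⟨s, rfl, -⟩ := (tf_pr F2 _ _).1 hy
    exact key s

def Zt (k : ℕ) (t : ℕ × Fin 2) (n : ℕ) : Prop :=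
  ((t.1 % 2 = 0 ∧ (t.2.val = 1 ∨ t.1 ≠ 0)) ↔ n % 2 = 0) ∧
    ((t.2.val = 1 ∧ t.1 = n) ∨ ((t.2.val = 0 ∨ 2 * k ≤ t.1) ∧ 2 * k ≤ n))

def Zk (k : ℕ) (x : F1.T × Srt) (y : F2.T × Srt) : Prop :=
  ((x.2 = .d0 ∨ x.2 = .d1) ∧ (y.2 = .d0 ∨ y.2 = .d1)) ∨
    ((x.2 = .pl ∨ x.2 = .mi) ∧ x.2 = y.2 ∧ Zt k x.1 y.1)

theorem Zt.mono {k : ℕ} {t : ℕ × Fin 2} {n : ℕ} (h : Zt (k + 1) t n) : Zt k t n := by
  unfold Zt at *
  omega

theorem zt1 {k : ℕ} {t s : ℕ × Fin 2} {n : ℕ} (h : Zt (k + 1) t n) (h' : F1.lt t s) :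
    ∃ m, m < n ∧ Zt k s m := by
  obtain ⟨a, b⟩ := t
  obtain ⟨c, d⟩ := s
  have h1 : b.val < d.val ∨ (b.val = d.val ∧ c < a) := h'
  have := b.2
  have := d.2
  unfold Zt at *
  dsimp only at *
  by_cases h2 : d.val = 1 ∧ c < n
  · exact ⟨c, by omega⟩
  · by_cases h3 : c % 2 = 0 ∧ (d.val = 1 ∨ c ≠ 0)
    · exact ⟨2 * k, by omega⟩
    · exact ⟨2 * k + 1, by omega⟩

theorem zt2 {k : ℕ} {t : ℕ × Fin 2} {n m : ℕ} (h : Zt (k + 1) t n) (h' : m < n) :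
    ∃ s, F1.lt t s ∧ Zt k s m := by
  obtain ⟨a, b⟩ := t
  have := b.2
  suffices ∃ c : ℕ, (b.val < 1 ∨ (b.val = 1 ∧ c < a)) ∧ Zt k (c, 1) m by
    obtain ⟨c, h1, h2⟩ := this
    exact ⟨(c, 1), h1, h2⟩
  unfold Zt at *
  have e : ((1 : Fin 2) : ℕ) = 1 := rfl
  dsimp only at *
  rw [e]
  by_cases h2 : b.val = 0 ∨ m < a
  · exact ⟨m, by omega⟩
  · by_cases h3 : m % 2 = 0
    · exact ⟨2 * k, by omega⟩
    · exact ⟨2 * k + 1, by omega⟩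

theorem zt3 {k : ℕ} {t s : ℕ × Fin 2} {n : ℕ} (h : Zt (k + 1) t n) (h' : F1.lt s t) :
    ∃ m, n < m ∧ Zt k s m := by
  obtain ⟨a, b⟩ := t
  obtain ⟨c, d⟩ := s
  have h1 : d.val < b.val ∨ (d.val = b.val ∧ a < c) := h'
  have := b.2
  have := d.2
  unfold Zt at *
  dsimp only at *
  by_cases h2 : d.val = 1 ∧ n < c
  · exact ⟨c, by omega⟩
  · by_cases h3 : c % 2 = 0 ∧ (d.val = 1 ∨ c ≠ 0)
    · exact ⟨2 * (k + n + 1), by omega⟩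
    · exact ⟨2 * (k + n + 1) + 1, by omega⟩

theorem zt4 {k : ℕ} {t : ℕ × Fin 2} {n m : ℕ} (h : Zt (k + 1) t n) (h' : n < m) :
    ∃ s, F1.lt s t ∧ Zt k s m := by
  obtain ⟨a, b⟩ := t
  have := b.2
  have e : ((1 : Fin 2) : ℕ) = 1 := rfl
  have e0 : ((0 : Fin 2) : ℕ) = 0 := rfl
  by_cases h2 : b.val = 1 ∧ a = n
  · refine ⟨(m, 1), (show (1 : Fin 2).val < b.val ∨ ((1 : Fin 2).val = b.val ∧ a < m) by omega), ?_⟩
    unfold Zt at *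
    dsimp only at *
    omega
  · refine ⟨(2 * (a + 1) + m % 2, 0), (show (0 : Fin 2).val < b.val ∨
      ((0 : Fin 2).val = b.val ∧ a < 2 * (a + 1) + m % 2) by omega), ?_⟩
    unfold Zt at *
    dsimp only at *
    omega

theorem equiv12 (a : Fm) (ha : a.sig ⊆ {0}) :
    Sat F1.R V1 (((0 : ℕ), (1 : Fin 2)), .pl) a ↔ Sat F2.R V2 ((0 : ℕ), .pl) a := by
  refine bounded_bisim Zk ?_ ?_ ?_ a ha (depth a) _ _ le_rfl
    (Or.inr ⟨Or.inl rfl, rfl, by simp [Zt]⟩)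
  · rintro k ⟨t, c⟩ ⟨n, d⟩ h p hp
    obtain rfl : p = 0 := by simpa using hp
    show (c = .pl ∧ F1.two t) ↔ (d = .pl ∧ ¬ F2.two n)
    rcases h with ⟨h1, h2⟩ | ⟨-, h1, h2⟩
    · dsimp only at h1 h2
      rcases h1 with rfl | rfl <;> rcases h2 with rfl | rfl <;> simp
    · dsimp only at h1
      subst h1
      refine and_congr Iff.rfl (h2.1.trans ?_)
      exact (show ∀ n : ℕ, n % 2 = 0 ↔ ¬ n % 2 = 1 by omega) n
  · rintro k ⟨t, c⟩ ⟨n, d⟩ h ⟨s, e⟩ hs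
    rcases h with ⟨h1, -⟩ | ⟨-, h1, h2⟩
    · exact ((tf_dead F1 t c).2 h1 _ hs).elim
    · dsimp only at h1 h2
      subst h1
      cases c <;> cases e <;> simp only [TF.R, TF.R'] at hs
      · obtain ⟨m, h3, h4⟩ := zt1 h2 hs
        exact ⟨(m, .pl), h3, Or.inr ⟨Or.inl rfl, rfl, h4⟩⟩
      · subst hs
        exact ⟨(n, .mi), rfl, Or.inr ⟨Or.inr rfl, rfl, h2.mono⟩⟩
      · exact ⟨(n, .d0), rfl, Or.inl ⟨Or.inl rfl, Or.inl rfl⟩⟩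
      · exact ⟨(n, .d0), rfl, Or.inl ⟨Or.inr rfl, Or.inl rfl⟩⟩
      · subst hs
        exact ⟨(n, .pl), rfl, Or.inr ⟨Or.inl rfl, rfl, h2.mono⟩⟩
      · obtain ⟨m, h3, h4⟩ := zt3 h2 hs
        exact ⟨(m, .mi), h3, Or.inr ⟨Or.inr rfl, rfl, h4⟩⟩
  · rintro k ⟨t, c⟩ ⟨n, d⟩ h ⟨m, e⟩ hs
    rcases h with ⟨-, h1⟩ | ⟨-, h1, h2⟩
    · exact ((tf_dead F2 n d).2 h1 _ hs).elim
    · dsimp only at h1 h2
      subst h1
      cases c <;> cases e <;> simp only [TF.R, TF.R'] at hs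
      · obtain ⟨s, h3, h4⟩ := zt2 h2 hs
        exact ⟨(s, .pl), h3, Or.inr ⟨Or.inl rfl, rfl, h4⟩⟩
      · subst hs
        exact ⟨(t, .mi), rfl, Or.inr ⟨Or.inr rfl, rfl, h2.mono⟩⟩
      · exact ⟨(t, .d0), rfl, Or.inl ⟨Or.inl rfl, Or.inl rfl⟩⟩
      · exact ⟨(t, .d0), rfl, Or.inl ⟨Or.inl rfl, Or.inr rfl⟩⟩
      · subst hs
        exact ⟨(t, .pl), rfl, Or.inr ⟨Or.inl rfl, rfl, h2.mono⟩⟩
      · obtain ⟨s, h3, h4⟩ := zt4 h2 hs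
        exact ⟨(s, .mi), h3, Or.inr ⟨Or.inr rfl, rfl, h4⟩⟩

theorem no_interpolant : ¬ ∃ i, IsInterpolant L phi1 psi2.neg i := by
  rintro ⟨i, h1, h2, h3⟩
  rw [sig_inter] at h1
  exact h3 F2 cpl2 V2 _ ((equiv12 i h1).1 (h2 F1 cpl1 V1 _ sat1)) sat2

theorem not_criterion : ¬ KripkeCriterion.{u} L := by
  intro h
  obtain ⟨W₁, R₁, V₁, x₁, W₂, R₂, V₂, x₂, Z, h1, h2, h3, h4, h5, h6⟩ :=
    (h phi1 psi2.neg).1 no_interpolant
  rw [sig_inter] at h3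
  exact no_bisim h1 h2 h3 h4 h5 (by simpa using h6)

end Pool.Agent.H300Z.Modal.SC
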