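import Pool.Agent.H300Z.Modal.Basic

/-!
# Unimodal simulations of linear time flows with two kinds of moments; strong completeness
-/

set_option autoImplicit false

namespace Pool.Agent.H300Z.Modal.SC

open Pool.Agent.H300Z.Modal Filter

universe u

inductive Srt : Type
  | pl | mi | d0 | d1
  deriving DecidableEq

instance : Fintype Srt := ⟨{.pl, .mi, .d0, .d1}, fun x => by cases x <;> simp⟩

structure TF where
  T : Type
  lt : T → T → Prop
  two : T → Prop
  irr : ∀ a, ¬ lt a a
  trans : ∀ a b c, lt a b → lt b c → lt a c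
  tri : ∀ a b, lt a b ∨ a = b ∨ lt b a
  fo : ∀ s t, lt s t → ∃ u, ¬ two u ∧ (u = s ∨ lt s u) ∧ (u = t ∨ lt u t)

def TF.R' (F : TF) (t s : F.T) : Srt → Srt → Prop
  | .pl, .pl => F.lt t s
  | .pl, .mi => s = t
  | .pl, .d0 => s = t
  | .pl, .d1 => s = t ∧ F.two t
  | .mi, .pl => s = t
  | .mi, .mi => F.lt s t
  | _, _ => False

def TF.R (F : TF) (x y : F.T × Srt) : Prop := F.R' x.1 y.1 x.2 y.2

def TF.NoMax (F : TF) (X : F.T → Prop) : Prop := (∃ t, X t) ∧ ∀ t, X t → ∃ s, X s ∧ F.lt t s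

def TF.IsSup (F : TF) (X : F.T → Prop) (y : F.T) : Prop :=
  ¬ F.two y ∧ (∀ t, X t → F.lt t y) ∧ ∀ a, F.lt a y → ∃ t, X t ∧ F.lt a t

def TF.Cpl (F : TF) : Prop := ∀ X, F.NoMax X → ∃ y, F.IsSup X y

def L : Set Fm := {a | ∀ F : TF, F.Cpl → ∀ (V : ℕ → F.T × Srt → Prop) (w : F.T × Srt), Sat F.R V w a}

theorem normal : IsNormal L := isNormal_log (fun F : TF => F.T × Srt) (fun F => F.R) TF.Cpl

theorem frameFor (F : TF) (h : F.Cpl) : FrameFor L F.R := fun _ ha V w => ha F h V w

def TF.DefSup (F : TF) (V : ℕ → F.T × Srt → Prop) : Prop :=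
  ∀ (a : Fm) (c : Srt), F.NoMax (fun t => Sat F.R V (t, c) a) →
    ∃ y, F.IsSup (fun t => Sat F.R V (t, c) a) y

/-! ### Ultraproducts -/

section Ultra

variable {I : Type} (U : Ultrafilter I) (F : I → TF)

def uS : Setoid (∀ i, (F i).T) where
  r f g := ∀ᶠ i in U, f i = g i
  iseqv := ⟨fun _ => Eventually.of_forall (fun _ => rfl), fun h => h.mono (fun _ h => h.symm),
    fun h1 h2 => (h1.and h2).mono (fun _ h => h.1.trans h.2)⟩

def uLift (P : ∀ i, (F i).T → Prop) : Quotient (uS U F) → Prop :=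
  Quotient.lift (fun f => ∀ᶠ i in U, P i (f i)) (fun f g (h : ∀ᶠ i in U, f i = g i) => propext
    ⟨fun h1 => (h.and h1).mono (fun _ h => h.1 ▸ h.2), fun h1 => (h.and h1).mono (fun _ h => h.1 ▸ h.2)⟩)

def uLt : Quotient (uS U F) → Quotient (uS U F) → Prop :=
  Quotient.lift₂ (fun f g => ∀ᶠ i in U, (F i).lt (f i) (g i))
    (fun f g f' g' (h : ∀ᶠ i in U, f i = f' i) (h' : ∀ᶠ i in U, g i = g' i) => propext
    ⟨fun h1 => (h.and (h'.and h1)).mono (fun _ h => h.1 ▸ h.2.1 ▸ h.2.2),
     fun h1 => (h.and (h'.and h1)).mono (fun _ h => h.1 ▸ h.2.1 ▸ h.2.2)⟩)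

theorem uEq (f g : ∀ i, (F i).T) :
    (Quotient.mk (uS U F) f = Quotient.mk (uS U F) g) ↔ ∀ᶠ i in U, f i = g i := Quotient.eq

variable [∀ i, Nonempty (F i).T]

def ultra : TF where
  T := Quotient (uS U F)
  lt := uLt U F
  two := uLift U F (fun i => (F i).two)
  irr a := by
    induction a using Quotient.inductionOn with
    | _ f => exact fun (h : ∀ᶠ i in U, (F i).lt (f i) (f i)) => by
              obtain ⟨i, hi⟩ := h.exists
              exact (F i).irr _ hi
  trans a b c := by
    induction a using Quotient.inductionOn with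
    | _ f =>
    induction b using Quotient.inductionOn with
    | _ g =>
    induction c using Quotient.inductionOn with
    | _ k =>
      exact fun (h1 : ∀ᶠ i in U, (F i).lt (f i) (g i)) (h2 : ∀ᶠ i in U, (F i).lt (g i) (k i)) =>
        (h1.and h2).mono (fun i h => (F i).trans _ _ _ h.1 h.2)
  tri a b := by
    induction a using Quotient.inductionOn with
    | _ f =>
    induction b using Quotient.inductionOn with
    | _ g =>
      have : ∀ᶠ i in U, (F i).lt (f i) (g i) ∨ f i = g i ∨ (F i).lt (g i) (f i) :=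
        Eventually.of_forall (fun i => (F i).tri _ _)
      rw [Ultrafilter.eventually_or, Ultrafilter.eventually_or] at this
      exact this.imp id (Or.imp (uEq U F f g).2 id)
  fo a b := by
    induction a using Quotient.inductionOn with
    | _ f =>
    induction b using Quotient.inductionOn with
    | _ g =>
      intro (h : ∀ᶠ i in U, (F i).lt (f i) (g i))
      obtain ⟨k, hk⟩ := Filter.skolem.1 (h.mono (fun i hi => (F i).fo _ _ hi))
      refine ⟨Quotient.mk _ k, ?_, ?_, ?_⟩
      · intro (h2 : ∀ᶠ i in U, (F i).two (k i))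
        obtain ⟨i, hi⟩ := (hk.and h2).exists
        exact hi.1.1 hi.2
      · exact (Ultrafilter.eventually_or.1 (hk.mono (fun i hi => hi.2.1))).imp (uEq U F k f).2 id
      · exact (Ultrafilter.eventually_or.1 (hk.mono (fun i hi => hi.2.2))).imp (uEq U F k g).2 id

theorem ultra_R (f g : ∀ i, (F i).T) (c d : Srt) :
    (ultra U F).R (Quotient.mk (uS U F) f, c) (Quotient.mk (uS U F) g, d) ↔
      ∀ᶠ i in U, (F i).R (f i, c) (g i, d) := by
  cases c <;> cases d <;> simp only [TF.R, TF.R', Filter.eventually_false_iff_eq_bot,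
    U.neBot.ne, Filter.eventually_and] <;>
  first
    | exact Iff.rfl
    | exact uEq U F g f
    | exact and_congr (uEq U F g f) Iff.rfl

def ultraV (V : ∀ i, ℕ → (F i).T × Srt → Prop) : ℕ → (ultra U F).T × Srt → Prop :=
  fun n x => uLift U F (fun i t => V i n (t, x.2)) x.1

theorem los (V : ∀ i, ℕ → (F i).T × Srt → Prop) (a : Fm) : ∀ (f : ∀ i, (F i).T) (c : Srt),
    Sat (ultra U F).R (ultraV U F V) (Quotient.mk (uS U F) f, c) a ↔
      ∀ᶠ i in U, Sat (F i).R (V i) (f i, c) a := by
  induction a with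
  | var n => intro f c; exact Iff.rfl
  | bot => intro f c; simp [U.neBot.ne]
  | imp a b iha ihb => intro f c; simp only [sat_imp, iha, ihb, Ultrafilter.eventually_imp]
  | box a ih =>
    intro f c
    simp only [sat_box]
    constructor
    · intro h
      by_contra hc
      rw [← Ultrafilter.eventually_not] at hc
      have h2 : ∀ᶠ i in U, ∃ d : Srt, ∃ s, (F i).R (f i, c) (s, d) ∧ ¬ Sat (F i).R (V i) (s, d) a := by
        refine hc.mono (fun i hi => ?_)
        push Not at hi
        obtain ⟨⟨s, d⟩, h1, h2⟩ := hi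
        exact ⟨d, s, h1, h2⟩
      have h3 : ∃ d : Srt, ∀ᶠ i in U, ∃ s, (F i).R (f i, c) (s, d) ∧
          ¬ Sat (F i).R (V i) (s, d) a := by
        have := (Ultrafilter.eventually_exists_iff (f := U)
          (P := fun (d : Srt) i => ∃ s, (F i).R (f i, c) (s, d) ∧
            ¬ Sat (F i).R (V i) (s, d) a)).1 h2
        exact this
      obtain ⟨d, h3⟩ := h3
      obtain ⟨g, hg⟩ := Filter.skolem.1 h3
      have := (ih g d).1 (h (Quotient.mk _ g, d) ((ultra_R U F f g c d).2 (hg.mono fun _ h => h.1)))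
      obtain ⟨i, hi⟩ := (hg.and this).exists
      exact hi.1.2 hi.2
    · rintro h ⟨s, d⟩ hs
      induction s using Quotient.inductionOn with
      | _ g =>
        exact (ih g d).2 ((h.and ((ultra_R U F f g c d).1 hs)).mono (fun i hi => hi.1 _ hi.2))

theorem ultra_defSup (hF : ∀ i, (F i).Cpl) (V : ∀ i, ℕ → (F i).T × Srt → Prop) :
    (ultra U F).DefSup (ultraV U F V) := by
  rintro a c ⟨⟨t, ht⟩, h2⟩
  have h3 : ∀ᶠ i in U, (F i).NoMax (fun t => Sat (F i).R (V i) (t, c) a) := by
    refine Eventually.and ?_ ?_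
    · induction t using Quotient.inductionOn with
      | _ f => exact ((los U F V a f c).1 ht).mono (fun i hi => ⟨_, hi⟩)
    · by_contra hc
      rw [← Ultrafilter.eventually_not] at hc
      have h4 : ∀ᶠ i in U, ∃ t, Sat (F i).R (V i) (t, c) a ∧
          ¬ ∃ s, Sat (F i).R (V i) (s, c) a ∧ (F i).lt t s :=
        hc.mono (fun i hi => by simpa only [not_forall, exists_prop] using hi)
      obtain ⟨g, hg⟩ := Filter.skolem.1 h4
      obtain ⟨s, hs, hs'⟩ := h2 (Quotient.mk _ g) ((los U F V a g c).2 (hg.mono fun _ h => h.1))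
      induction s using Quotient.inductionOn with
      | _ k =>
        have h5 : ∀ᶠ i in U, (F i).lt (g i) (k i) := hs'
        obtain ⟨i, hi⟩ := (hg.and (h5.and ((los U F V a k c).1 hs))).exists
        exact hi.1.2 ⟨_, hi.2.2, hi.2.1⟩
  obtain ⟨y, hy⟩ := Filter.skolem.1 (h3.mono (fun i hi => hF i _ hi))
  refine ⟨Quotient.mk _ y, ?_, ?_, ?_⟩
  · intro (h : ∀ᶠ i in U, (F i).two (y i))
    obtain ⟨i, hi⟩ := (hy.and h).exists
    exact hi.1.1 hi.2
  · intro s hs
    induction s using Quotient.inductionOn with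
    | _ k => exact (hy.and ((los U F V a k c).1 hs)).mono (fun i hi => hi.1.2.1 _ hi.2)
  · intro s hs
    induction s using Quotient.inductionOn with
    | _ k =>
      have h5 : ∀ᶠ i in U, (F i).lt (k i) (y i) := hs
      obtain ⟨g, hg⟩ := Filter.skolem.1 ((hy.and h5).mono (fun i hi => hi.1.2.2 _ hi.2))
      exact ⟨Quotient.mk _ g, (los U F V a g c).2 (hg.mono fun _ h => h.1),
        hg.mono fun _ h => h.2⟩

end Ultra

end Pool.Agent.H300Z.Modal.SC
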